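import Pool.Agent.Lib.MP_adc574_ag_PC.FR

/-!
# Systems with a flag of isotropic pieces: definitions
-/

set_option autoImplicit false

namespace MPadcIP

open Polynomial Matrix MPadcOA MPadcPC

/-- A symplectic system with an isotropic frame of full rank which is horizontal up to rows of smaller level. -/
structure FrL (g : ℕ) (k : Type*) [Field k] where
  /-- the discriminant -/
  Δ : k[X]
  /-- the matrix of the system -/
  G : Matrix (Nx g) (Nx g) k[X]
  /-- the frame -/
  U : Matrix (Fin g) (Nx g) k[X]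
  /-- the derivatives of the rows -/
  nu : Matrix (Fin g) (Fin g) k[X]

/-- The properties of the system. -/
structure FrL.Ok {g : ℕ} {k : Type*} [Field k] (D : FrL g k) (lv : Fin g → ℕ) (c : ℕ) : Prop where
  ne : D.Δ ≠ 0
  degD : D.Δ.natDegree ≤ c
  degG : ∀ i j, (D.G i j).natDegree ≤ c
  symp : D.G * JJ g k[X] + JJ g k[X] * D.Gᵀ = 0
  horU : ∀ i l, D.Δ * derivative (D.U i l) = (D.U * D.G) i l + (D.nu * D.U) i l
  nuT : ∀ a b, ¬ lv b < lv a → D.nu a b = 0
  isoU : D.U * JJ g k[X] * D.Uᵀ = 0
  rkU : ∀ α : k, D.Δ.eval α ≠ 0 → LinearIndependent k fun i l => (D.U i l).eval α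

end MPadcIP
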