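import Pool.Agent.Lib.MP_adc574_ag_PC.N3
import Pool.Agent.Lib.MP_adc574_ag_IP.FL

/-!
# Isotropic pieces: the forms in the minors of a frame with `r` rows

`Px g r = Fin r → Nx g` are the coordinates of the tensors of degree `r` of the symplectic space with the coordinates `Nx g`.
A form of degree `m` on the tensors is an array `φ : (Fin m → Px g r) → R`, its value at the tensor `P` is `evp P φ`. The minors of a
frame `U` with `r` rows are the tensor `pl U`. The rows of `U` are not supposed to be horizontal, only the tensor `pl U`.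

`ti h φ` is the form on the frames with `g` rows whose value at `V` is the value of `φ` at the minors of the first `r` rows of `V`.
-/

set_option autoImplicit false

namespace MPadcIP

open Polynomial Matrix MPadcGM MPadcOA MPadcPC

/-- The coordinates of the tensors of degree `r`. -/
abbrev Px (g r : ℕ) := Fin r → Nx g

/-- The value of the form `φ` at the tensor `P`. -/
def evp {R : Type*} [CommRing R] {g r m : ℕ} (P : Px g r → R) (φ : (Fin m → Px g r) → R) : R :=
  ∑ s, φ s * ∏ i, P (s i)

/-- The minors of a frame with `r` rows. -/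
def pl {R : Type*} [CommRing R] {g r : ℕ} (U : Matrix (Fin r) (Nx g) R) : Px g r → R :=
  fun t => (Matrix.of fun i j => U i (t j)).det

/-- The first `r` rows of a frame. -/
def top {R : Type*} {g r : ℕ} (h : r ≤ g) (U : Matrix (Fin g) (Nx g) R) : Matrix (Fin r) (Nx g) R :=
  fun i => U (Fin.castLE h i)

/-- The action of the matrix `A` on the forms on the tensors. -/
def actP {R : Type*} [CommRing R] {g r m : ℕ} (A : Matrix (Nx g) (Nx g) R) (φ : (Fin m → Px g r) → R) :
    (Fin m → Px g r) → R :=
  fun s => ∑ i, ∑ j, ∑ c, A (s i j) c * φ (Function.update s i (Function.update (s i) j c))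

/-- The differential operator on the forms on the tensors. -/
noncomputable def opP {R : Type*} [CommRing R] {g r m : ℕ} (Δ : R[X]) (G : Matrix (Nx g) (Nx g) R[X])
    (φ : (Fin m → Px g r) → R[X]) : (Fin m → Px g r) → R[X] :=
  fun s => Δ * derivative (φ s) + actP G φ s

/-- The form on the frames with `g` rows which is given by a form on the tensors. -/
def ti {R : Type*} [CommRing R] {g r m : ℕ} (h : r ≤ g) (φ : (Fin m → Px g r) → R) : Kx g (m * r) → R :=
  fun s => φ (fun b j => (s (finProdFinEquiv (b, j))).2) *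
    ∏ b : Fin m, ∑ σ : Equiv.Perm (Fin r), ((Equiv.Perm.sign σ : ℤ) : R) *
      ∏ j : Fin r, if (s (finProdFinEquiv (b, j))).1 = Fin.castLE h (σ j) then 1 else 0

/-- The minors of the first `r` rows of the generic isotropic frame. -/
noncomputable def gp {g r : ℕ} (h : r ≤ g) (R : Type*) [CommRing R] : Px g r → GenR g R :=
  pl (top h (genU g R))

/-- The value of a form at the minors of the generic isotropic frame. -/
noncomputable def evgp {g r : ℕ} (h : r ≤ g) (m : ℕ) (R : Type*) [CommRing R] :
    ((Fin m → Px g r) → R) →ₗ[R] GenR g R where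
  toFun φ := evp (gp h R) fun s => MvPolynomial.C (φ s)
  map_add' φ ψ := by
    simp only [evp, Pi.add_apply, MvPolynomial.C_add, add_mul, Finset.sum_add_distrib]
  map_smul' c φ := by
    simp only [evp, Pi.smul_apply, smul_eq_mul, MvPolynomial.C_mul, RingHom.id_apply, mul_assoc,
      Finset.smul_sum, MvPolynomial.smul_eq_C_mul]

theorem evgp_apply {g r : ℕ} (h : r ≤ g) (m : ℕ) (R : Type*) [CommRing R] (φ : (Fin m → Px g r) → R) :
    evgp h m R φ = evp (gp h R) fun s => MvPolynomial.C (φ s) := rfl

/-- The form `φ` vanishes at the minors of the first `r` rows of the generic isotropic frame. -/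
def VanP {R : Type*} [CommRing R] {g r m : ℕ} (h : r ≤ g) (φ : (Fin m → Px g r) → R) : Prop :=
  evgp h m R φ = 0

/-- The functions of degree `m` on the tensors. -/
noncomputable def SSP {g r : ℕ} (h : r ≤ g) (m : ℕ) (k : Type*) [Field k] : Submodule k (GenR g k) :=
  LinearMap.range (evgp h m k)

/-- The dimension of the space of the functions of degree `m` on the tensors. -/
noncomputable def sdimP {g r : ℕ} (h : r ≤ g) (m : ℕ) (k : Type*) [Field k] : ℕ := Module.finrank k (SSP h m k)

/-- The product of the form `φ` and the minor of the columns `t₀`. -/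
def mulzP {R : Type*} [CommRing R] {g r m : ℕ} (t₀ : Px g r) (φ : (Fin m → Px g r) → R) : (Fin (m + 1) → Px g r) → R :=
  fun s => if s (Fin.last m) = t₀ then φ (fun i => s (Fin.castSucc i)) else 0

/-- The products of the minor of the columns `t₀` and the functions of degree `m`. -/
noncomputable def ZZP {g r : ℕ} (h : r ≤ g) (t₀ : Px g r) (m : ℕ) (k : Type*) [Field k] : Submodule k (GenR g k) :=
  (SSP h m k).map (LinearMap.mulLeft k (gp h k t₀))

/-- The auxiliary polynomial. -/
noncomputable def auxP {k : Type*} [Field k] {g r m B : ℕ} (q : ℕ) (P : Px g r → k[X])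
    (Φ : Fin B → (Fin m → Px g r) → k[X]) : k[X] :=
  ∑ b : Fin B, X ^ (q * (b : ℕ)) * evp P (Φ b)

/-- A symplectic system with an isotropic frame with `r` rows whose minors are horizontal. -/
structure FrP (g r : ℕ) (k : Type*) [Field k] where
  /-- the discriminant -/
  Δ : k[X]
  /-- the matrix of the system -/
  G : Matrix (Nx g) (Nx g) k[X]
  /-- the frame -/
  U : Matrix (Fin r) (Nx g) k[X]

/-- The properties of the system. -/
structure FrP.Ok {g r : ℕ} {k : Type*} [Field k] (D : FrP g r k) (c : ℕ) : Prop where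
  ne : D.Δ ≠ 0
  degD : D.Δ.natDegree ≤ c
  degG : ∀ i j, (D.G i j).natDegree ≤ c
  symp : D.G * JJ g k[X] + JJ g k[X] * D.Gᵀ = 0
  horU : ∀ t : Px g r, D.Δ * derivative (pl D.U t) = ∑ j, ∑ c, pl D.U (Function.update t j c) * D.G c (t j)
  isoU : D.U * JJ g k[X] * D.Uᵀ = 0
  rkU : ∀ α : k, D.Δ.eval α ≠ 0 → LinearIndependent k fun i l => (D.U i l).eval α

/-- Big monodromy on the forms on the tensors. -/
def BigP {F : Type} [Field F] {g : ℕ} (r : ℕ) (Δ : F[X]) (G : Matrix (Nx g) (Nx g) F[X]) : Prop :=
  ∀ (m : ℕ) (W : Submodule F[X] ((Fin m → Px g r) → F[X])),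
    (∀ d : F[X], d ≠ 0 → ∀ x : (Fin m → Px g r) → F[X], d • x ∈ W → x ∈ W) → (∀ x ∈ W, opP Δ G x ∈ W) →
      ∀ (u v : Nx g → F), ∀ x ∈ W, actP (tr (fun l => C (u l)) (fun l => C (v l))) x ∈ W

/-- The module generated by the iterated derivatives of `Φ` and the forms which vanish. -/
noncomputable def WAP {F : Type} [Field F] {g r m : ℕ} (h : r ≤ g) (Δ : F[X]) (G : Matrix (Nx g) (Nx g) F[X])
    (Φ : (Fin m → Px g r) → F[X]) : Submodule F[X] ((Fin m → Px g r) → F[X]) :=
  Submodule.span F[X] (Set.range fun e : ℕ => (opP Δ G)^[e] Φ) ⊔ LinearMap.ker (evgp h m F[X])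

/-- Its saturation. -/
noncomputable def WSP {F : Type} [Field F] {g r m : ℕ} (h : r ≤ g) (Δ : F[X]) (G : Matrix (Nx g) (Nx g) F[X])
    (Φ : (Fin m → Px g r) → F[X]) : Submodule F[X] ((Fin m → Px g r) → F[X]) where
  carrier := {x | ∃ d : F[X], d ≠ 0 ∧ d • x ∈ WAP h Δ G Φ}
  add_mem' := by
    rintro x y ⟨d, hd, hx⟩ ⟨d', hd', hy⟩
    refine ⟨d * d', mul_ne_zero hd hd', ?_⟩
    rw [smul_add]
    refine add_mem ?_ ?_
    · rw [mul_comm, mul_smul]
      exact Submodule.smul_mem _ _ hx
    · rw [mul_smul]
      exact Submodule.smul_mem _ _ hy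
  zero_mem' := ⟨1, one_ne_zero, by rw [smul_zero]; exact zero_mem _⟩
  smul_mem' := by
    rintro c x ⟨d, hd, hx⟩
    refine ⟨d, hd, ?_⟩
    rw [smul_comm]
    exact Submodule.smul_mem _ _ hx

/-- The rows of level at most `j`, numbered by `Fin r`. -/
def FrL.low {g : ℕ} {k : Type*} [Field k] (D : FrL g k) (lv : Fin g → ℕ) (j r : ℕ)
    (e : Fin r ≃ {a : Fin g // lv a ≤ j}) : FrP g r k where
  Δ := D.Δ
  G := D.G
  U := fun i => D.U (e i).1

end MPadcIP
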