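import Pool.Agent.Lib.MP_adc574_ag_IP.Defs

/-!
# LEAF Q1: the value of `ti h φ` (medium-, reindexing)

Definitions: `evp`, `pl`, `top`, `ti` in IP/Defs.lean, `ev` in OA/Defs.lean.

PROOF. Reindex the `s : Fin (m * r) → Fin g × Nx g` by the pairs `(ρ, t)`, `ρ b j = (s (finProdFinEquiv (b, j))).1`, `t b j = (s (..)).2`
(`Equiv.arrowCongr finProdFinEquiv.symm ..`, `Equiv.curry`, `Equiv.arrowProdEquivProdArrow`; or `Fintype.sum_equiv`).
`∏ i : Fin (m * r), U (s i).1 (s i).2 = ∏ b, ∏ j, U (ρ b j) (t b j)` (`Equiv.prod_comp finProdFinEquiv`, `Fintype.prod_prod_type`).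
So `ev U (ti h φ) = ∑ t, φ t * ∑ ρ, ∏ b, (∑ σ, sign σ * ∏ j, [ρ b j = castLE (σ j)]) * ∏ j, U (ρ b j) (t b j)`
`= ∑ t, φ t * ∏ b, (∑ ρ' : Fin r → Fin g, (∑ σ, sign σ * ∏ j, [ρ' j = castLE (σ j)]) * ∏ j, U (ρ' j) (t b j))` (`Finset.prod_univ_sum`, `Fintype.piFinset_univ`)
and the inner sum is `∑ σ, sign σ * ∏ j, U (castLE (σ j)) (t b j)` (only `ρ' j = castLE (σ j)` remains; model: `ev_mulz` in OA/S4.lean)
`= pl (top h U) (t b)` (`Matrix.det_apply'`).
-/

set_option autoImplicit false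

namespace MPadcIP

open Polynomial Matrix MPadcGM MPadcOA MPadcPC

/-- The reindexing. -/
private def Q1_e (g r m : ℕ) : (Fin m → Px g r) × (Fin m → Fin r → Fin g) ≃ Kx g (m * r) where
  toFun x := fun i => (x.2 (finProdFinEquiv.symm i).1 (finProdFinEquiv.symm i).2,
    x.1 (finProdFinEquiv.symm i).1 (finProdFinEquiv.symm i).2)
  invFun s := (fun b j => (s (finProdFinEquiv (b, j))).2, fun b j => (s (finProdFinEquiv (b, j))).1)
  left_inv x := by
    refine Prod.ext (funext fun b => funext fun j => ?_) (funext fun b => funext fun j => ?_)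
    · simp only [Equiv.symm_apply_apply]
    · simp only [Equiv.symm_apply_apply]
  right_inv s := by
    funext i
    simp only [Prod.mk.eta, Equiv.apply_symm_apply]

private theorem Q1_det {R : Type*} [CommRing R] {g r : ℕ} (h : r ≤ g) (U : Matrix (Fin g) (Nx g) R) (t : Px g r) :
    ∑ ρ : Fin r → Fin g, (∑ σ : Equiv.Perm (Fin r), ((Equiv.Perm.sign σ : ℤ) : R) *
      ∏ j : Fin r, if ρ j = Fin.castLE h (σ j) then 1 else 0) * ∏ j, U (ρ j) (t j) = pl (top h U) t := by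
  unfold pl
  rw [Matrix.det_apply']
  simp only [Finset.sum_mul]
  rw [Finset.sum_comm]
  refine Finset.sum_congr rfl fun σ _ => ?_
  have h3 : ∀ ρ : Fin r → Fin g, ((Equiv.Perm.sign σ : ℤ) : R) *
      (∏ j, if ρ j = Fin.castLE h (σ j) then 1 else 0) * ∏ j, U (ρ j) (t j) =
      ((Equiv.Perm.sign σ : ℤ) : R) * ∏ j, ((if ρ j = Fin.castLE h (σ j) then 1 else 0) * U (ρ j) (t j)) := by
    intro ρ
    rw [Finset.prod_mul_distrib, mul_assoc]
  rw [Finset.sum_congr rfl fun ρ _ => h3 ρ, ← Finset.mul_sum]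
  have h4 := Finset.prod_univ_sum (fun _ : Fin r => (Finset.univ : Finset (Fin g)))
    (fun (j : Fin r) (x : Fin g) => (if x = Fin.castLE h (σ j) then (1 : R) else 0) * U x (t j))
  rw [Fintype.piFinset_univ] at h4
  rw [← h4]
  refine congrArg (fun a => ((Equiv.Perm.sign σ : ℤ) : R) * a) (Finset.prod_congr rfl fun j _ => ?_)
  rw [Finset.sum_eq_single (Fin.castLE h (σ j))]
  · rw [if_pos rfl, one_mul]
    rfl
  · intro b _ hb
    rw [if_neg hb, zero_mul]
  · intro hb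
    exact absurd (Finset.mem_univ _) hb

theorem ev_ti {R : Type*} [CommRing R] {g r m : ℕ} (h : r ≤ g) (U : Matrix (Fin g) (Nx g) R) (φ : (Fin m → Px g r) → R) :
    ev U (ti h φ) = evp (pl (top h U)) φ := by
  unfold ev evp
  rw [← (Q1_e g r m).sum_comp, Fintype.sum_prod_type]
  refine Finset.sum_congr rfl fun t _ => ?_
  have h1 : ∀ ρ : Fin m → Fin r → Fin g, ti h φ (Q1_e g r m (t, ρ)) *
      ∏ i, U (Q1_e g r m (t, ρ) i).1 (Q1_e g r m (t, ρ) i).2 =
      φ t * ∏ b, ((∑ σ : Equiv.Perm (Fin r), ((Equiv.Perm.sign σ : ℤ) : R) *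
        ∏ j : Fin r, if ρ b j = Fin.castLE h (σ j) then 1 else 0) * ∏ j, U (ρ b j) (t b j)) := by
    intro ρ
    have h2 : ∏ i, U (Q1_e g r m (t, ρ) i).1 (Q1_e g r m (t, ρ) i).2 = ∏ b, ∏ j, U (ρ b j) (t b j) := by
      rw [← finProdFinEquiv.prod_comp, Fintype.prod_prod_type]
      refine Finset.prod_congr rfl fun b _ => Finset.prod_congr rfl fun j _ => ?_
      simp only [Q1_e, Equiv.coe_fn_mk, Equiv.symm_apply_apply]
    rw [h2, Finset.prod_mul_distrib, ← mul_assoc]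
    refine congrArg (fun a => a * ∏ b, ∏ j, U (ρ b j) (t b j)) ?_
    simp only [ti, Q1_e, Equiv.coe_fn_mk, Equiv.symm_apply_apply]
  rw [Finset.sum_congr rfl fun ρ _ => h1 ρ, ← Finset.mul_sum]
  have h4 := Finset.prod_univ_sum (fun _ : Fin m => (Finset.univ : Finset (Fin r → Fin g)))
    (fun (b : Fin m) (ρ : Fin r → Fin g) => (∑ σ : Equiv.Perm (Fin r), ((Equiv.Perm.sign σ : ℤ) : R) *
        ∏ j : Fin r, if ρ j = Fin.castLE h (σ j) then 1 else 0) * ∏ j, U (ρ j) (t b j))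
  rw [Fintype.piFinset_univ] at h4
  rw [← h4]
  exact congrArg (fun a => φ t * a) (Finset.prod_congr rfl fun b _ => Q1_det h U (t b))

end MPadcIP
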