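import Pool.Agent.Lib.MP_adc574_ag_IP.Q12

/-!
# LEAF Q10: the auxiliary polynomial and its derivatives (medium-, copy of OA/S12.lean)

* `natDegree_auxP`: as `natDegree_aux`, with `natDegree_evp` (Q3).
* `evp_of_mem_ZZP`: let `evgp φ = gp h k t₀ * evgp ψ = evgp (mulzP t₀ ψ)` (`evgp_mulzP`, Q8), so `VanP h (φ - mulzP t₀ ψ)`, over `k[X]` too (`vanP_map C`, Q12); `evp_van_U` (Q7):
  `evp (pl U) (fun s => C (φ s)) = evp (pl U) (fun s => C (mulzP t₀ ψ s)) = pl U t₀ * evp (pl U) (fun s => C (ψ s))` (`mulzP_map`, `evp_mulzP`).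
* `dd_auxP_eval`: copy of `dd_aux_eval` (OA/S12.lean) with `dd_iterate_evp`, `evp_sum`, `evp_of_mem_ZZP` (in place of `ev_of_mem_ZZ`); the last step: `pl U t₀` has the value
  `pl (U.map (eval τ)) t₀ = 0` at `τ` (`pl_map` for `evalRingHom τ`). The private lemmas `S12_dd_sum`, `S12_dd_pow`, `S12_iter` have to be copied (prefix `Q10_`).
  (`tw`, `natDegree_tw`, `dd` are in OA/S12.lean, OA/Act.lean.)
-/

set_option autoImplicit false

namespace MPadcIP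

open Polynomial Matrix MPadcGM MPadcOA MPadcPC

private theorem Q10_dd_sum {k : Type} [Field k] {B : ℕ} (Δ : k[X]) (P : Fin B → k[X]) :
    dd Δ (∑ b, P b) = ∑ b, dd Δ (P b) := by
  unfold dd
  rw [Polynomial.derivative_sum, Finset.mul_sum]

private theorem Q10_dd_pow {k : Type} [Field k] {p : ℕ} [CharP k p] (q : ℕ) (hq : p ∣ q) (Δ : k[X]) (n : ℕ)
    (P : k[X]) : dd Δ (X ^ (q * n) * P) = X ^ (q * n) * dd Δ P := by
  have h1 : ((q * n : ℕ) : k) = 0 := (CharP.cast_eq_zero_iff k p (q * n)).2 (hq.mul_right n)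
  unfold dd
  rw [Polynomial.derivative_mul, Polynomial.derivative_X_pow, h1, C_0, zero_mul, zero_mul, zero_add]
  ring

private theorem Q10_iter {k : Type} [Field k] {p : ℕ} [CharP k p] (q : ℕ) (hq : p ∣ q) {B : ℕ} (Δ : k[X])
    (e : ℕ) (P : Fin B → k[X]) :
    (dd Δ)^[e] (∑ b : Fin B, X ^ (q * (b : ℕ)) * P b) =
      ∑ b : Fin B, X ^ (q * (b : ℕ)) * (dd Δ)^[e] (P b) := by
  induction e with
  | zero => rfl
  | succ e ih =>
    rw [Function.iterate_succ_apply', ih, Q10_dd_sum]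
    refine Finset.sum_congr rfl fun b _ => ?_
    rw [Q10_dd_pow (p := p) q hq, Function.iterate_succ_apply']

theorem natDegree_auxP {k : Type} [Field k] {g r m B : ℕ} (q d A : ℕ) (P : Px g r → k[X]) (hP : ∀ t, (P t).natDegree ≤ d)
    (Φ : Fin B → (Fin m → Px g r) → k[X]) (hΦ : ∀ b s, (Φ b s).natDegree ≤ A) :
    (auxP q P Φ).natDegree ≤ q * B + A + m * d := by
  unfold auxP
  refine Polynomial.natDegree_sum_le_of_forall_le _ _ fun b _ => ?_
  refine (Polynomial.natDegree_mul_le).trans ?_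
  have h1 : (X ^ (q * (b : ℕ)) : k[X]).natDegree ≤ q * (b : ℕ) := Polynomial.natDegree_X_pow_le _
  have h2 := natDegree_evp P d A hP (Φ b) (hΦ b)
  have h3 : q * (b : ℕ) ≤ q * B := Nat.mul_le_mul_left q b.isLt.le
  omega

theorem evp_of_mem_ZZP {k : Type} [Field k] {g r m : ℕ} (h : r ≤ g) (t₀ : Px g r) (U : Matrix (Fin r) (Nx g) k[X])
    (hi : U * JJ g k[X] * Uᵀ = 0) (α : k) (hα : LinearIndependent k fun i l => (U i l).eval α)
    (φ : (Fin (m + 1) → Px g r) → k) (hφ : evgp h (m + 1) k φ ∈ ZZP h t₀ m k) :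
    ∃ ρ : k[X], evp (pl U) (fun s => C (φ s)) = pl U t₀ * ρ := by
  obtain ⟨y, hy, hy2⟩ := Submodule.mem_map.1 hφ
  obtain ⟨ψ, rfl⟩ := LinearMap.mem_range.1 hy
  have e1 : evgp h (m + 1) k φ = evgp h (m + 1) k (mulzP t₀ ψ) := by
    rw [evgp_mulzP, ← hy2]
    rfl
  have e2 : VanP h (φ - mulzP t₀ ψ) := by
    show evgp h (m + 1) k (φ - mulzP t₀ ψ) = 0
    rw [map_sub, e1, sub_self]
  have e3 := evp_van_U h U hi α hα (vanP_map h (C : k →+* k[X]) e2)
  have e4 : evp (pl U) (fun s => C (φ s)) = evp (pl U) (fun s => C (mulzP t₀ ψ s)) := by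
    rw [← sub_eq_zero, ← e3]
    unfold evp
    rw [← Finset.sum_sub_distrib]
    refine Finset.sum_congr rfl fun s _ => ?_
    show C (φ s) * _ - C (mulzP t₀ ψ s) * _ = C (φ s - mulzP t₀ ψ s) * _
    rw [C_sub, sub_mul]
  refine ⟨evp (pl U) fun s => C (ψ s), ?_⟩
  rw [e4, ← evp_mulzP]
  congr 1
  funext s
  exact mulzP_map t₀ (C : k →+* k[X]) ψ s

theorem dd_auxP_eval {k : Type} [Field k] {g r m : ℕ} {p : ℕ} [Fact p.Prime] [CharP k p] {B : ℕ} (h : r ≤ g) (t₀ : Px g r)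
    (q : ℕ) (hq : p ∣ q) (Δ : k[X]) (G : Matrix (Nx g) (Nx g) k[X]) (U : Matrix (Fin r) (Nx g) k[X])
    (hU : ∀ t : Px g r, Δ * derivative (pl U t) = ∑ j, ∑ c, pl U (Function.update t j c) * G c (t j))
    (hiso : U * JJ g k[X] * Uᵀ = 0) (α : k) (hα : LinearIndependent k fun i l => (U i l).eval α)
    (Φ : Fin B → (Fin (m + 1) → Px g r) → k[X]) (e : ℕ) (γ : k)
    (hΦ : ∀ n, evgp h (m + 1) k
      (fun s => (∑ b : Fin B, tw B γ b * (opP Δ G)^[e] (Φ b) s).coeff n) ∈ ZZP h t₀ m k)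
    (τ : k) (hτq : τ ^ q * (1 + γ * τ) = τ) (hτ : pl (U.map (eval τ)) t₀ = 0) :
    ((dd Δ)^[e] (auxP q (pl U) Φ)).eval τ = 0 := by
  classical
  have h1 : (dd Δ)^[e] (auxP q (pl U) Φ) =
      ∑ b : Fin B, X ^ (q * (b : ℕ)) * evp (pl U) ((opP Δ G)^[e] (Φ b)) := by
    unfold auxP
    rw [Q10_iter (p := p) q hq]
    refine Finset.sum_congr rfl fun b _ => ?_
    rw [dd_iterate_evp Δ G (pl U) hU]
  have hv : 1 + γ * τ ≠ 0 := by
    intro h
    rw [h, mul_zero] at hτq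
    rw [← hτq, mul_zero, add_zero] at h
    exact one_ne_zero h
  have h2 : eval τ (∑ b : Fin B, tw B γ b * evp (pl U) ((opP Δ G)^[e] (Φ b))) =
      (1 + γ * τ) ^ B * eval τ (∑ b : Fin B, X ^ (q * (b : ℕ)) * evp (pl U) ((opP Δ G)^[e] (Φ b))) := by
    rw [Polynomial.eval_finsetSum, Polynomial.eval_finsetSum, Finset.mul_sum]
    refine Finset.sum_congr rfl fun b _ => ?_
    have h3 : eval τ (tw B γ b) = (1 + γ * τ) ^ B * τ ^ (q * (b : ℕ)) := by
      unfold tw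
      rw [Polynomial.eval_mul, Polynomial.eval_pow, Polynomial.eval_pow, Polynomial.eval_X,
        Polynomial.eval_add, Polynomial.eval_one, Polynomial.eval_mul, Polynomial.eval_C, Polynomial.eval_X]
      calc τ ^ (b : ℕ) * (1 + γ * τ) ^ (B - (b : ℕ)) =
          (τ ^ q * (1 + γ * τ)) ^ (b : ℕ) * (1 + γ * τ) ^ (B - (b : ℕ)) := by rw [hτq]
        _ = ((1 + γ * τ) ^ (b : ℕ) * (1 + γ * τ) ^ (B - (b : ℕ))) * τ ^ (q * (b : ℕ)) := by
          rw [mul_pow, ← pow_mul]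
          ring
        _ = (1 + γ * τ) ^ B * τ ^ (q * (b : ℕ)) := by
          rw [← pow_add, Nat.add_sub_cancel' b.isLt.le]
    rw [Polynomial.eval_mul, h3, Polynomial.eval_mul, Polynomial.eval_pow, Polynomial.eval_X, mul_assoc]
  have h2' : eval τ (∑ b : Fin B, tw B γ b * evp (pl U) ((opP Δ G)^[e] (Φ b))) = 0 →
      ((dd Δ)^[e] (auxP q (pl U) Φ)).eval τ = 0 := by
    intro h
    rw [h2] at h
    rw [h1]
    exact (mul_eq_zero.1 h).resolve_left (pow_ne_zero _ hv)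
  apply h2'
  rw [← evp_sum]
  obtain ⟨Ψ, hΨ⟩ : ∃ Ψ : (Fin (m + 1) → Px g r) → k[X],
      Ψ = fun s => ∑ b : Fin B, tw B γ b * (opP Δ G)^[e] (Φ b) s := ⟨_, rfl⟩
  have hmem : ∀ n, evgp h (m + 1) k (fun s => (Ψ s).coeff n) ∈ ZZP h t₀ m k := by
    rw [hΨ]
    exact hΦ
  rw [← hΨ]
  obtain ⟨N, hN⟩ : ∃ N : ℕ, ∀ s, (Ψ s).natDegree < N :=
    ⟨Finset.univ.sup (fun s => (Ψ s).natDegree) + 1, fun s =>
      Nat.lt_succ_of_le (Finset.le_sup (f := fun s => (Ψ s).natDegree) (Finset.mem_univ s))⟩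
  have h3 : Ψ = fun s => ∑ n ∈ Finset.range N, X ^ n * C ((Ψ s).coeff n) := by
    funext s
    have h4 := Polynomial.as_sum_range' (Ψ s) N (hN s)
    conv_lhs => rw [h4]
    refine Finset.sum_congr rfl fun n _ => ?_
    rw [← Polynomial.C_mul_X_pow_eq_monomial, mul_comm]
  have h4 : evp (pl U) Ψ = ∑ n ∈ Finset.range N, X ^ n * evp (pl U) (fun s => C ((Ψ s).coeff n)) := by
    conv_lhs => rw [h3]
    exact evp_sum (Finset.range N) (pl U) (fun n => X ^ n) (fun n s => C ((Ψ s).coeff n))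
  have h5 : ∀ n, ∃ ρ : k[X], evp (pl U) (fun s => C ((Ψ s).coeff n)) = pl U t₀ * ρ := fun n =>
    evp_of_mem_ZZP h t₀ U hiso α hα (fun s => (Ψ s).coeff n) (hmem n)
  choose ρ hρ using h5
  have h6 : eval τ (pl U t₀) = 0 := by
    have h7 := pl_map (evalRingHom τ) U t₀
    rw [Polynomial.coe_evalRingHom] at h7
    rw [h7]
    exact hτ
  rw [h4, Polynomial.eval_finsetSum]
  refine Finset.sum_eq_zero fun n _ => ?_
  rw [hρ, Polynomial.eval_mul, Polynomial.eval_mul, h6, zero_mul, mul_zero]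

end MPadcIP
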