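import Pool.Agent.Lib.MP_adc574_ag_IP.Q12

/-!
# LEAF Q11: the auxiliary polynomial is not zero (medium-, 2, copies of OA/S10.lean, OA/S13.lean)

* `vanP_poly`: `vanP_iff` (Q2), `van_poly` (OA/S10.lean) for `ti h Φ`, `ti_coeff`, and `evg g (m * r) k (ti h φ) = evgp h m k φ` (`evg_apply`, `ti_map`, `ev_ti`).
* `auxP_ne_zero`: copy of `aux_ne_zero` (OA/S13.lean) with `evgp`, `evp`, `VanP`, `vanP_poly`. (`S13_pt` is private there: copy it with the prefix `Q11_`.)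
-/

set_option autoImplicit false

namespace MPadcIP

open Polynomial Matrix MPadcGM MPadcOA MPadcPC

theorem vanP_poly {k : Type} [Field k] {g r m : ℕ} (h : r ≤ g) (Φ : (Fin m → Px g r) → k[X]) :
    VanP h Φ ↔ ∀ n, evgp h m k (fun s => (Φ s).coeff n) = 0 := by
  rw [vanP_iff, van_poly]
  refine forall_congr' fun n => ?_
  have h1 : (fun s => (ti h Φ s).coeff n) = ti h (fun t => (Φ t).coeff n) := by
    funext s
    exact ti_coeff h Φ n s
  rw [h1, evg_apply, evgp_apply]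
  have h2 : (fun s => (MvPolynomial.C (ti h (fun t => (Φ t).coeff n) s) : GenR g k)) =
      ti h (fun t => MvPolynomial.C ((Φ t).coeff n)) := by
    funext s
    exact ti_map h MvPolynomial.C _ s
  rw [h2, ev_ti]
  exact Iff.rfl

private theorem Q11_pt {k : Type} [Field k] [Infinite k] (P : k[X]) (hP : P ≠ 0) : ∃ α : k, P.eval α ≠ 0 := by
  by_contra hcon
  push Not at hcon
  exact hP (Polynomial.funext fun x => by rw [hcon x, eval_zero])

theorem auxP_ne_zero {k : Type} [Field k] [Infinite k] {g r m : ℕ} (h : r ≤ g) {p : ℕ} [Fact p.Prime] [CharP k p] {B : ℕ}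
    (n : ℕ) (hn : 0 < n) (A : ℕ) (Δ : k[X]) (hΔ : Δ ≠ 0) (P : Px g r → k[X]) (Φ : Fin B → (Fin m → Px g r) → k[X])
    (hΦ : ∀ b s, (Φ b s).natDegree ≤ A)
    (hne : ∃ b n, evgp h m k (fun s => (Φ b s).coeff n) ≠ 0)
    (Hnv : ∀ Ψ : (Fin m → Px g r) → k[X], (∀ s, (Ψ s).natDegree ≤ A) → ∀ α : k, Δ.eval α ≠ 0 →
      (X - C α) ^ p ∣ evp P Ψ → VanP h Ψ) : auxP (p ^ n) P Φ ≠ 0 := by
  classical
  intro haux
  obtain ⟨b₀, n₀, hb₀⟩ := hne
  obtain ⟨v, hv⟩ : ∃ v : Fin B → GenR g k, ∀ b, v b = evgp h m k (fun s => (Φ b s).coeff n₀) :=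
    ⟨_, fun _ => rfl⟩
  rw [← hv] at hb₀
  obtain ⟨e₀, he₀⟩ := MvPolynomial.ne_zero_iff.1 hb₀
  obtain ⟨H, hH⟩ : ∃ H : k[X], H = ∑ b : Fin B, C (MvPolynomial.coeff e₀ (v b)) * X ^ (b : ℕ) :=
    ⟨_, rfl⟩
  have hH0 : H ≠ 0 := by
    intro h0
    have h1 := congrArg (fun P : k[X] => P.coeff (b₀ : ℕ)) h0
    simp only [hH, finsetSum_coeff, coeff_C_mul, coeff_X_pow, coeff_zero] at h1
    rw [Finset.sum_eq_single b₀] at h1
    · rw [if_pos rfl, mul_one] at h1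
      exact he₀ h1
    · intro b _ hb
      rw [if_neg (fun h => hb (Fin.ext h.symm)), mul_zero]
    · intro h
      exact absurd (Finset.mem_univ _) h
  have hp : 0 < p := (Fact.out : p.Prime).pos
  have hq : 0 < p ^ n := pow_pos hp n
  have hprod : expand k (p ^ n) H * Δ ≠ 0 :=
    mul_ne_zero (fun h => hH0 ((expand_eq_zero hq).1 h)) hΔ
  obtain ⟨α, hα⟩ := Q11_pt _ hprod
  rw [eval_mul, expand_eval] at hα
  have hα1 : H.eval (α ^ p ^ n) ≠ 0 := left_ne_zero_of_mul hα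
  have hα2 : Δ.eval α ≠ 0 := right_ne_zero_of_mul hα
  obtain ⟨Ψ, hΨ⟩ : ∃ Ψ : (Fin m → Px g r) → k[X], ∀ s, Ψ s = ∑ b : Fin B, C (α ^ (p ^ n * (b : ℕ))) * Φ b s :=
    ⟨_, fun _ => rfl⟩
  have hev : evp P Ψ = ∑ b : Fin B, C (α ^ (p ^ n * (b : ℕ))) * evp P (Φ b) := by
    unfold evp
    simp only [hΨ, Finset.sum_mul, Finset.mul_sum]
    rw [Finset.sum_comm]
    refine Finset.sum_congr rfl fun b _ => Finset.sum_congr rfl fun s _ => ?_
    ring
  have hev2 : evp P Ψ = ∑ b : Fin B, (C (α ^ (p ^ n * (b : ℕ))) - X ^ (p ^ n * (b : ℕ))) *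
      evp P (Φ b) := by
    simp only [sub_mul, Finset.sum_sub_distrib]
    unfold auxP at haux
    rw [haux, sub_zero, hev]
  have hdv : (X - C α) ^ p ∣ evp P Ψ := by
    rw [hev2]
    refine Finset.dvd_sum fun b _ => Dvd.dvd.mul_right ?_ _
    have h1 : (X - C α) ^ p ∣ (X - C α : k[X]) ^ p ^ n :=
      pow_dvd_pow _ (Nat.le_self_pow hn.ne' p)
    have h2 : (X - C α : k[X]) ^ p ^ n = X ^ p ^ n - C α ^ p ^ n := sub_pow_char_pow _ _ n
    have h3 : (C α ^ p ^ n - X ^ p ^ n : k[X]) ∣ (C α ^ p ^ n) ^ (b : ℕ) - (X ^ p ^ n) ^ (b : ℕ) :=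
      sub_dvd_pow_sub_pow _ _ _
    have h4 : (X - C α : k[X]) ^ p ^ n ∣ C α ^ p ^ n - X ^ p ^ n := by
      rw [h2, ← neg_sub]
      exact neg_dvd.2 dvd_rfl
    have h5 : C (α ^ (p ^ n * (b : ℕ))) - X ^ (p ^ n * (b : ℕ)) =
        (C α ^ p ^ n) ^ (b : ℕ) - (X ^ p ^ n : k[X]) ^ (b : ℕ) := by
      rw [← pow_mul, ← pow_mul, C_pow]
    rw [h5]
    exact h1.trans (h4.trans h3)
  have hdeg : ∀ s, (Ψ s).natDegree ≤ A := by
    intro s
    rw [hΨ]
    refine natDegree_sum_le_of_forall_le _ _ fun b _ => ?_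
    exact (natDegree_C_mul_le _ _).trans (hΦ b s)
  have hvan := (vanP_poly h Ψ).1 (Hnv Ψ hdeg α hα2 hdv) n₀
  have hlin : evgp h m k (fun s => (Ψ s).coeff n₀) = ∑ b : Fin B, α ^ (p ^ n * (b : ℕ)) • v b := by
    have h1 : (fun s => (Ψ s).coeff n₀) =
        ∑ b : Fin B, α ^ (p ^ n * (b : ℕ)) • (fun s => (Φ b s).coeff n₀) := by
      funext s
      rw [Finset.sum_apply, hΨ, finsetSum_coeff]
      refine Finset.sum_congr rfl fun b _ => ?_
      rw [coeff_C_mul]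
      rfl
    rw [h1, map_sum]
    refine Finset.sum_congr rfl fun b _ => ?_
    rw [map_smul, hv]
  rw [hlin] at hvan
  have h2 := congrArg (MvPolynomial.coeff e₀) hvan
  rw [MvPolynomial.coeff_sum, MvPolynomial.coeff_zero] at h2
  apply hα1
  rw [hH, eval_finsetSum, ← h2]
  refine Finset.sum_congr rfl fun b _ => ?_
  rw [eval_mul, eval_C, eval_pow, eval_X, MvPolynomial.coeff_smul, smul_eq_mul, ← pow_mul, mul_comm]

end MPadcIP
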