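import Pool.Agent.Lib.MP_adc574_ag_IP.Q8

/-!
# LEAF Q12: the forms which vanish at the generic isotropic frame (medium-, 9 short statements)

Models: OA/N_T0.lean, OA/N_W.lean (`opD_van`).

* `vanP_zero`, `vanP_add`, `vanP_smul`: `evgp` is linear. `vanP_of_smul`: `GenR g R` is a domain, `evgp (c • φ) = c • evgp φ = C c * evgp φ`.
* `vanP_map`, `vanP_of_map`: `vanP_iff` (Q2), `ti_map`, `van_map`, `van_of_map` (OA/N_T0.lean). `vanP_derivative`: `ti_derivative`, `van_derivative`.
* `opP_van`: `vanP_iff`, `ti_opP`, `opD_van` (OA/N_W.lean).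
* `opP_add`, `opP_smul`: as `opD_add`, `opD_smul` (OA/N_W.lean), directly from the definitions.
-/

set_option autoImplicit false

namespace MPadcIP

open Polynomial Matrix MPadcGM MPadcOA MPadcPC

theorem vanP_zero {R : Type} [CommRing R] {g r m : ℕ} (h : r ≤ g) : VanP h (0 : (Fin m → Px g r) → R) := by
  unfold VanP
  exact map_zero _

theorem vanP_add {R : Type} [CommRing R] {g r m : ℕ} (h : r ≤ g) {φ ψ : (Fin m → Px g r) → R} (h1 : VanP h φ)
    (h2 : VanP h ψ) : VanP h (φ + ψ) := by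
  unfold VanP at h1 h2 ⊢
  rw [map_add, h1, h2, add_zero]

theorem vanP_smul {R : Type} [CommRing R] {g r m : ℕ} (h : r ≤ g) (c : R) {φ : (Fin m → Px g r) → R} (h1 : VanP h φ) :
    VanP h (c • φ) := by
  unfold VanP at h1 ⊢
  rw [map_smul, h1, smul_zero]

theorem vanP_of_smul {R : Type} [CommRing R] [IsDomain R] {g r m : ℕ} (h : r ≤ g) {c : R} (hc : c ≠ 0)
    {φ : (Fin m → Px g r) → R} (h1 : VanP h (c • φ)) : VanP h φ := by
  rw [vanP_iff, ti_smul] at h1
  rw [vanP_iff]
  exact van_of_smul hc h1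

theorem vanP_map {R S : Type} [CommRing R] [CommRing S] {g r m : ℕ} (h : r ≤ g) (f : R →+* S) {φ : (Fin m → Px g r) → R}
    (h1 : VanP h φ) : VanP h fun s => f (φ s) := by
  rw [vanP_iff] at h1 ⊢
  have h2 := van_map f h1
  have h3 : (fun s => f (ti h φ s)) = ti h fun t => f (φ t) := funext fun s => ti_map h f φ s
  rw [h3] at h2
  exact h2

theorem vanP_derivative {R : Type} [CommRing R] {g r m : ℕ} (h : r ≤ g) {φ : (Fin m → Px g r) → R[X]} (h1 : VanP h φ) :
    VanP h fun s => derivative (φ s) := by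
  rw [vanP_iff] at h1 ⊢
  have h2 := van_derivative h1
  have h3 : (fun s => derivative (ti h φ s)) = ti h fun t => derivative (φ t) := funext fun s => ti_derivative h φ s
  rw [h3] at h2
  exact h2

theorem opP_add {R : Type} [CommRing R] {g r m : ℕ} (Δ : R[X]) (G : Matrix (Nx g) (Nx g) R[X])
    (φ ψ : (Fin m → Px g r) → R[X]) : opP Δ G (φ + ψ) = opP Δ G φ + opP Δ G ψ := by
  funext s
  simp only [opP, actP, Pi.add_apply, derivative_add, mul_add, Finset.sum_add_distrib]
  ring

theorem opP_smul {R : Type} [CommRing R] {g r m : ℕ} (Δ : R[X]) (G : Matrix (Nx g) (Nx g) R[X]) (a : R[X])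
    (φ : (Fin m → Px g r) → R[X]) : opP Δ G (a • φ) = (Δ * derivative a) • φ + a • opP Δ G φ := by
  funext s
  have h1 : actP G (a • φ) s = a * actP G φ s := by
    simp only [actP, Pi.smul_apply, smul_eq_mul, Finset.mul_sum]
    refine Finset.sum_congr rfl fun i _ => Finset.sum_congr rfl fun j _ => Finset.sum_congr rfl fun c _ => ?_
    ring
  simp only [opP, Pi.add_apply, Pi.smul_apply, smul_eq_mul, derivative_mul, h1]
  ring

theorem opP_van {F : Type} [Field F] [CharZero F] {g r m : ℕ} (h : r ≤ g) (Δ : F[X]) (G : Matrix (Nx g) (Nx g) F[X])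
    (hG : G * JJ g F[X] + JJ g F[X] * Gᵀ = 0) {φ : (Fin m → Px g r) → F[X]} (h1 : VanP h φ) : VanP h (opP Δ G φ) := by
  rw [vanP_iff] at h1 ⊢
  rw [← ti_opP]
  exact opD_van Δ G hG h1

end MPadcIP
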