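import Pool.Agent.Lib.MP_adc574_ag_IP.Q12

/-!
# LEAF Q13: the module `WSP` (medium-, 5 short statements, copies of OA/N_W.lean)

Copies of `WS_opD`, `WS_sat`, `WS_self`, `WS_van`, `WS_induction` (OA/N_W.lean) with `opP`, `opP_add`, `opP_smul`, `opP_van`, `VanP`, `WAP`, `WSP`
(`LinearMap.ker (evgp h m F[X])` in place of `vanS`; `x ∈ LinearMap.ker (evgp h m F[X])` is `VanP h x` by `LinearMap.mem_ker`).
-/

set_option autoImplicit false

namespace MPadcIP

open Polynomial Matrix MPadcGM MPadcOA MPadcPC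

theorem WSP_opP {F : Type} [Field F] [CharZero F] {g r m : ℕ} (h : r ≤ g) {Δ : F[X]} {G : Matrix (Nx g) (Nx g) F[X]}
    {Φ : (Fin m → Px g r) → F[X]} (hG : G * JJ g F[X] + JJ g F[X] * Gᵀ = 0) {x : (Fin m → Px g r) → F[X]}
    (hx : x ∈ WSP h Δ G Φ) : opP Δ G x ∈ WSP h Δ G Φ := by
  have h0 : opP Δ G (0 : (Fin m → Px g r) → F[X]) = 0 := by
    have h1 := opP_add Δ G (0 : (Fin m → Px g r) → F[X]) 0
    rw [add_zero] at h1
    exact left_eq_add.1 h1
  have hWA : ∀ y ∈ WAP h Δ G Φ, opP Δ G y ∈ WAP h Δ G Φ := by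
    intro y hy
    obtain ⟨y1, hy1, y2, hy2, rfl⟩ := Submodule.mem_sup.1 hy
    rw [opP_add]
    refine add_mem ?_ (Submodule.mem_sup_right (LinearMap.mem_ker.2 (opP_van h Δ G hG (LinearMap.mem_ker.1 hy2))))
    induction hy1 using Submodule.span_induction with
    | mem z hz =>
      obtain ⟨e, rfl⟩ := hz
      refine Submodule.mem_sup_left (Submodule.subset_span ⟨e + 1, ?_⟩)
      exact Function.iterate_succ_apply' _ _ _
    | zero =>
      rw [h0]
      exact zero_mem _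
    | add z z' hz hz' ih ih' =>
      rw [opP_add]
      exact add_mem (ih (add_mem (Submodule.mem_sup_left hz) (Submodule.mem_sup_right hy2)))
        (ih' (add_mem (Submodule.mem_sup_left hz') (Submodule.mem_sup_right hy2)))
    | smul a z hz ih =>
      rw [opP_smul]
      exact add_mem (Submodule.smul_mem _ _ (Submodule.mem_sup_left hz))
        (Submodule.smul_mem _ _ (ih (add_mem (Submodule.mem_sup_left hz) (Submodule.mem_sup_right hy2))))
  obtain ⟨d, hd, h2⟩ := hx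
  refine ⟨d * d, mul_ne_zero hd hd, ?_⟩
  have h1 : (d * d) • opP Δ G x = d • opP Δ G (d • x) - (Δ * derivative d) • (d • x) := by
    rw [opP_smul, smul_add, mul_smul, smul_comm d (Δ * derivative d) x, add_sub_cancel_left]
  rw [h1]
  exact sub_mem (Submodule.smul_mem _ _ (hWA _ h2)) (Submodule.smul_mem _ _ h2)

theorem WSP_sat {F : Type} [Field F] {g r m : ℕ} (h : r ≤ g) {Δ : F[X]} {G : Matrix (Nx g) (Nx g) F[X]}
    {Φ : (Fin m → Px g r) → F[X]} (d : F[X]) (hd : d ≠ 0) (x : (Fin m → Px g r) → F[X]) (hx : d • x ∈ WSP h Δ G Φ) :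
    x ∈ WSP h Δ G Φ := by
  obtain ⟨d', hd', h'⟩ := hx
  refine ⟨d' * d, mul_ne_zero hd' hd, ?_⟩
  rw [mul_smul]
  exact h'

theorem WSP_self {F : Type} [Field F] {g r m : ℕ} (h : r ≤ g) {Δ : F[X]} {G : Matrix (Nx g) (Nx g) F[X]}
    {Φ : (Fin m → Px g r) → F[X]} : Φ ∈ WSP h Δ G Φ := by
  refine ⟨1, one_ne_zero, ?_⟩
  rw [one_smul]
  exact Submodule.mem_sup_left (Submodule.subset_span ⟨0, rfl⟩)

theorem WSP_van {F : Type} [Field F] {g r m : ℕ} (h : r ≤ g) {Δ : F[X]} {G : Matrix (Nx g) (Nx g) F[X]}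
    {Φ : (Fin m → Px g r) → F[X]} {x : (Fin m → Px g r) → F[X]} (hx : VanP h x) : x ∈ WSP h Δ G Φ := by
  refine ⟨1, one_ne_zero, ?_⟩
  rw [one_smul]
  exact Submodule.mem_sup_right (LinearMap.mem_ker.2 hx)

theorem WSP_induction {F : Type} [Field F] {g r m : ℕ} (h : r ≤ g) {Δ : F[X]} {G : Matrix (Nx g) (Nx g) F[X]}
    {Φ : (Fin m → Px g r) → F[X]} (Z : ((Fin m → Px g r) → F[X]) → Prop) (hΦ : Z Φ) (hv : ∀ x, VanP h x → Z x)
    (hadd : ∀ x y, Z x → Z y → Z (x + y)) (hsmul : ∀ (a : F[X]) x, Z x → Z (a • x)) (hop : ∀ x, Z x → Z (opP Δ G x))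
    (hdiv : ∀ (d : F[X]) x, d ≠ 0 → Z (d • x) → Z x) (x : (Fin m → Px g r) → F[X]) (hx : x ∈ WSP h Δ G Φ) : Z x := by
  obtain ⟨d, hd, h2⟩ := hx
  refine hdiv d x hd ?_
  obtain ⟨y1, hy1, y2, hy2, hy⟩ := Submodule.mem_sup.1 h2
  rw [← hy]
  refine hadd _ _ ?_ (hv _ (LinearMap.mem_ker.1 hy2))
  clear hy hy2 h2
  induction hy1 using Submodule.span_induction with
  | mem z hz =>
    obtain ⟨e, rfl⟩ := hz
    show Z ((opP Δ G)^[e] Φ)
    induction e with
    | zero => exact hΦ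
    | succ e ih =>
      rw [Function.iterate_succ_apply']
      exact hop _ ih
  | zero => exact hv 0 (vanP_zero h)
  | add z z' _ _ ih ih' => exact hadd _ _ ih ih'
  | smul a z _ ih => exact hsmul a z ih

end MPadcIP
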