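import Pool.Agent.Lib.MP_adc574_ag_IP.Q12

/-!
# LEAF Q14: a saturated module of forms which is stable under the symplectic Lie algebra and vanishes at one isotropic frame (medium-, 3)

* `vanP_of_stable`: let `W' = W.map (ti h)` (the linear map given by `ti_add`, `ti_smul`), a subspace of `Kx g (m * r) → F`, stable under `KS (tr u v)` (`ti_actP`). `ext_lag` (Q5)
  gives a Lagrangian frame `V` with `top h V = U`; `ev V (ti h φ) = evp (pl U) φ = 0` (`ev_ti`). `van_of_stable` (OA/N_T7.lean): `Van (ti h φ)` for all `φ ∈ W`; `vanP_iff`.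
* `vanP_of_sat`: copy of `van_of_sat` (OA/N_Z0.lean) with `VanP`, `vanP_map C`, `vanP_add`, `vanP_smul`.
* `all_vanP`: copy of `all_van` (OA/N_Z0.lean) with `vanP_of_stable`, `vanP_of_sat`; the value at `α` of `actP (tr (C ∘ u) (C ∘ v)) ξ` is `actP (tr u v)` of the value of `ξ`
  (directly from the definition of `actP`, the private lemmas `NZ0_JJ`, `NZ0_tr` have to be copied with the prefix `Q14_`; `NZ0_W` too).
-/

set_option autoImplicit false

namespace MPadcIP

open Polynomial Matrix MPadcGM MPadcOA MPadcPC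

private def Q14_S {F : Type} [Field F] {g r m : ℕ} (h : r ≤ g) (W : Submodule F ((Fin m → Px g r) → F)) :
    Submodule F (Kx g (m * r) → F) where
  carrier := {ψ | ∃ φ ∈ W, ψ = ti h φ}
  add_mem' := by
    rintro _ _ ⟨φ, hφ, rfl⟩ ⟨φ', hφ', rfl⟩
    exact ⟨φ + φ', W.add_mem hφ hφ', (ti_add h φ φ').symm⟩
  zero_mem' := ⟨0, W.zero_mem, (ti_zero h).symm⟩
  smul_mem' := by
    rintro c _ ⟨φ, hφ, rfl⟩
    exact ⟨c • φ, W.smul_mem _ hφ, (ti_smul h c φ).symm⟩

theorem vanP_of_stable {F : Type} [Field F] [CharZero F] {g r m : ℕ} (h : r ≤ g) (W : Submodule F ((Fin m → Px g r) → F))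
    (hW : ∀ (u v : Nx g → F), ∀ φ ∈ W, actP (tr u v) φ ∈ W) (U : Matrix (Fin r) (Nx g) F)
    (hi : U * JJ g F * Uᵀ = 0) (hr : LinearIndependent F fun i => U i) (h0 : ∀ φ ∈ W, evp (pl U) φ = 0) :
    ∀ φ ∈ W, VanP h φ := by
  obtain ⟨V, hV1, hV2, hV3⟩ := ext_lag h U hi hr
  have hfin := van_of_stable (Q14_S h W) (by
    rintro u v _ ⟨φ, hφ, rfl⟩
    exact ⟨actP (tr u v) φ, hW u v φ hφ, ti_actP h (tr u v) φ⟩) V hV1 hV2 (by
    rintro _ ⟨φ, hφ, rfl⟩
    rw [ev_ti, hV3]
    exact h0 φ hφ)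
  exact fun φ hφ => (vanP_iff h φ).2 (hfin _ ⟨φ, hφ, rfl⟩)

theorem vanP_of_sat {F : Type} [Field F] {g r m : ℕ} (h : r ≤ g) (W : Submodule F[X] ((Fin m → Px g r) → F[X]))
    (hsat : ∀ d : F[X], d ≠ 0 → ∀ x : (Fin m → Px g r) → F[X], d • x ∈ W → x ∈ W)
    (hvan : ∀ x : (Fin m → Px g r) → F[X], VanP h x → x ∈ W) (α : F)
    (h0 : ∀ x ∈ W, VanP h fun s => (x s).eval α) : ∀ x ∈ W, VanP h x := by
  have key : ∀ N : ℕ, ∀ x ∈ W, (∀ s, (x s).natDegree ≤ N) → VanP h x := by
    intro N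
    induction N with
    | zero =>
      intro x hx hd
      have h1 : x = fun s => C ((x s).eval α) := by
        funext s
        have h2 := eq_C_of_natDegree_eq_zero (Nat.le_zero.1 (hd s))
        rw [h2, eval_C]
      rw [h1]
      exact vanP_map h C (h0 x hx)
    | succ N ih =>
      intro x hx hd
      have hy : VanP h fun s => (C ((x s).eval α) : F[X]) := vanP_map h C (h0 x hx)
      have hyW := hvan _ hy
      have hz : (X - C α) • (fun s => x s /ₘ (X - C α)) = x - fun s => C ((x s).eval α) := by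
        funext s
        rw [Pi.smul_apply, Pi.sub_apply, smul_eq_mul]
        have h1 := modByMonic_add_div (x s) (X - C α)
        rw [modByMonic_X_sub_C_eq_C_eval] at h1
        exact eq_sub_of_add_eq' h1
      have hzW : (fun s => x s /ₘ (X - C α)) ∈ W := by
        refine hsat (X - C α) (X_sub_C_ne_zero α) _ ?_
        rw [hz]
        exact W.sub_mem hx hyW
      have hzv := ih _ hzW fun s => by
        rw [natDegree_divByMonic _ (monic_X_sub_C α), natDegree_X_sub_C]
        have := hd s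
        omega
      have h2 : x = (X - C α) • (fun s => x s /ₘ (X - C α)) + fun s => C ((x s).eval α) := by
        rw [hz, sub_add_cancel]
      rw [h2]
      exact vanP_add h (vanP_smul h _ hzv) hy
  intro x hx
  refine key (∑ s, (x s).natDegree) x hx fun s => ?_
  exact Finset.single_le_sum (f := fun s => (x s).natDegree) (fun _ _ => Nat.zero_le _)
    (Finset.mem_univ s)

private def Q14_W {F : Type} [Field F] {g r m : ℕ} (W : Submodule F[X] ((Fin m → Px g r) → F[X])) (α : F) :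
    Submodule F ((Fin m → Px g r) → F) where
  carrier := {φ | ∃ ξ ∈ W, φ = fun s => (ξ s).eval α}
  add_mem' := by
    rintro _ _ ⟨ξ, hξ, rfl⟩ ⟨ξ', hξ', rfl⟩
    refine ⟨ξ + ξ', W.add_mem hξ hξ', ?_⟩
    funext s
    rw [Pi.add_apply, Pi.add_apply, eval_add]
  zero_mem' := ⟨0, W.zero_mem, by funext s; rw [Pi.zero_apply, Pi.zero_apply, eval_zero]⟩
  smul_mem' := by
    rintro c _ ⟨ξ, hξ, rfl⟩
    refine ⟨C c • ξ, W.smul_mem _ hξ, ?_⟩
    funext s
    rw [Pi.smul_apply, Pi.smul_apply, smul_eq_mul, smul_eq_mul, eval_mul, eval_C]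

private theorem Q14_JJ {F : Type} [Field F] {g : ℕ} (α : F) :
    (JJ g F[X]).map (evalRingHom α) = JJ g F := by
  rw [JJ, JJ, Matrix.fromBlocks_map, Matrix.map_zero _ (map_zero _), Matrix.map_one _ (map_zero _) (map_one _)]
  congr 1
  ext i j
  rw [Matrix.map_apply, Matrix.neg_apply, Matrix.neg_apply, map_neg, Matrix.one_apply,
    Matrix.one_apply]
  split_ifs
  · rw [map_one]
  · rw [map_zero]

private theorem Q14_tr {F : Type} [Field F] {g : ℕ} (α : F) (u v : Nx g → F) :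
    (tr (fun l => C (u l)) (fun l => C (v l)) : Matrix (Nx g) (Nx g) F[X]).map (evalRingHom α) =
      tr u v := by
  have hJ : ∀ (w : Nx g → F) a, evalRingHom α ((JJ g F[X] *ᵥ fun l => C (w l)) a) =
      (JJ g F *ᵥ w) a := by
    intro w a
    rw [RingHom.map_mulVec, Q14_JJ]
    have h1 : (⇑(evalRingHom α) ∘ fun l => C (w l)) = w := by
      funext l
      rw [Function.comp_apply, coe_evalRingHom, eval_C]
    rw [h1]
  ext a b
  rw [Matrix.map_apply, tr, tr, Matrix.add_apply, Matrix.add_apply, vecMulVec_apply,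
    vecMulVec_apply, vecMulVec_apply, vecMulVec_apply, map_add, map_mul, map_mul, hJ, hJ,
    coe_evalRingHom, eval_C, eval_C]

private theorem Q14_act {R S : Type} [CommRing R] [CommRing S] {g r m : ℕ} (f : R →+* S) (A : Matrix (Nx g) (Nx g) R)
    (φ : (Fin m → Px g r) → R) (s : Fin m → Px g r) : f (actP A φ s) = actP (A.map f) (fun t => f (φ t)) s := by
  unfold actP
  rw [map_sum]
  refine Finset.sum_congr rfl fun i _ => ?_
  rw [map_sum]
  refine Finset.sum_congr rfl fun j _ => ?_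
  rw [map_sum]
  refine Finset.sum_congr rfl fun c _ => ?_
  rw [map_mul, Matrix.map_apply]
theorem all_vanP {F : Type} [Field F] [CharZero F] {g r m : ℕ} (h : r ≤ g) (W : Submodule F[X] ((Fin m → Px g r) → F[X]))
    (hsat : ∀ d : F[X], d ≠ 0 → ∀ x : (Fin m → Px g r) → F[X], d • x ∈ W → x ∈ W)
    (hvan : ∀ x : (Fin m → Px g r) → F[X], VanP h x → x ∈ W)
    (hst : ∀ (u v : Nx g → F), ∀ x ∈ W, actP (tr (fun l => C (u l)) (fun l => C (v l))) x ∈ W) (α : F)
    (U : Matrix (Fin r) (Nx g) F) (hi : U * JJ g F * Uᵀ = 0) (hr : LinearIndependent F fun i => U i)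
    (h0 : ∀ x ∈ W, evp (pl U) (fun s => (x s).eval α) = 0) : ∀ x ∈ W, VanP h x := by
  refine vanP_of_sat h W hsat hvan α ?_
  have hc : ∀ ξ ∈ W, (fun s => (ξ s).eval α) ∈ Q14_W W α := fun ξ hξ => ⟨ξ, hξ, rfl⟩
  have hfin := vanP_of_stable h (Q14_W W α) ?_ U hi hr ?_
  · exact fun ξ hξ => hfin _ (hc ξ hξ)
  · rintro u v _ ⟨ξ, hξ, rfl⟩
    refine ⟨actP (tr (fun l => C (u l)) (fun l => C (v l))) ξ, hst u v ξ hξ, ?_⟩
    funext s
    have h1 := Q14_act (evalRingHom α) (tr (fun l => C (u l)) (fun l => C (v l))) ξ s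
    rw [Q14_tr] at h1
    exact h1.symm
  · rintro _ ⟨ξ, hξ, rfl⟩
    exact h0 ξ hξ

end MPadcIP
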