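import Pool.Agent.Lib.MP_adc574_ag_IP.Q12

/-!
# LEAF Q15: the representatives at the places of the ultraproduct (medium-, 2)

* `rp_ti` (private, prefix `Q15_`): eventually `rp (ti h φ s) n = ti h (fun t => rp (φ t) n) s` for all `s`: the second factor of `ti h φ s` is the image of an integer (`map_sum`, `map_prod`, ..
  for `Int.castRingHom`), `rp_mul`, `rp_intCast` (OA/N_U2.lean).
* `rp_vanP`: `vanP_iff`, `rp_van` (OA/N_U3.lean), `rp_ti`.
* `rp_opP`: as `rp_opD` (OA/N_U3.lean): `rp_add`, `rp_mul`, `rp_derivative`, `rp_sum`: eventually for all `s`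
  `rp (Δ * derivative (φ s) + ∑ i, ∑ j, ∑ c, G (s i j) c * φ (..)) n = rp Δ n * derivative (rp (φ s) n) + ∑ .. rp (G (s i j) c) n * rp (φ (..)) n` (`Filter.eventually_all`).
-/

set_option autoImplicit false

namespace MPadcIP

open Polynomial Matrix MPadcGM MPadcOA MPadcPC

/-- The integer in the second factor of `ti`. -/
private def Q15_z {g r m : ℕ} (h : r ≤ g) (s : Kx g (m * r)) : ℤ :=
  ∏ b : Fin m, ∑ σ : Equiv.Perm (Fin r), (Equiv.Perm.sign σ : ℤ) *
    ∏ j : Fin r, if (s (finProdFinEquiv (b, j))).1 = Fin.castLE h (σ j) then 1 else 0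

private theorem Q15_ti {R : Type*} [CommRing R] {g r m : ℕ} (h : r ≤ g) (φ : (Fin m → Px g r) → R)
    (s : Kx g (m * r)) :
    ti h φ s = φ (fun b j => (s (finProdFinEquiv (b, j))).2) * ((Q15_z h s : ℤ) : R) := by
  unfold ti Q15_z
  push_cast
  rfl

private theorem Q15_rp_ti {k : ℕ → Type} [∀ n, Field (k n)] {g r m : ℕ} (h : r ≤ g)
    (φ : (Fin m → Px g r) → (LL k)[X]) :
    ∀ᶠ n in HF, ∀ s, rp (ti h φ s) n = ti h (fun t => rp (φ t) n) s := by
  refine Filter.eventually_all.2 fun s => ?_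
  filter_upwards [rp_mul (φ (fun b j => (s (finProdFinEquiv (b, j))).2))
    ((Q15_z h s : ℤ) : (LL k)[X]), rp_intCast (k := k) (Q15_z h s)] with n e1 e2
  rw [Q15_ti, Q15_ti, e1, e2]

private theorem Q15_sum {k : ℕ → Type} [∀ n, Field (k n)] {ι : Type} [Fintype ι] (A B : ι → (LL k)[X]) :
    ∀ᶠ n in HF, rp (∑ l, A l * B l) n = ∑ l, rp (A l) n * rp (B l) n := by
  have h2 : ∀ᶠ n in HF, ∀ l, rp (A l * B l) n = rp (A l) n * rp (B l) n :=
    Filter.eventually_all.2 fun l => rp_mul _ _
  filter_upwards [rp_sum Finset.univ (fun l => A l * B l), h2] with n e1 e2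
  rw [e1]
  exact Finset.sum_congr rfl fun l _ => e2 l

private theorem Q15_act {k : ℕ → Type} [∀ n, Field (k n)] {g r m : ℕ} (G : Matrix (Nx g) (Nx g) (LL k)[X])
    (φ : (Fin m → Px g r) → (LL k)[X]) (s : Fin m → Px g r) :
    ∀ᶠ n in HF, rp (actP G φ s) n = actP (mr G n) (fun s => rp (φ s) n) s := by
  have a1 := rp_sum (k := k) Finset.univ (fun i : Fin m => ∑ j : Fin r, ∑ c : Nx g,
    G (s i j) c * φ (Function.update s i (Function.update (s i) j c)))
  have a2 : ∀ᶠ n in HF, ∀ i : Fin m, rp (∑ j : Fin r, ∑ c : Nx g,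
      G (s i j) c * φ (Function.update s i (Function.update (s i) j c))) n =
        ∑ j : Fin r, ∑ c : Nx g, rp (G (s i j) c) n *
          rp (φ (Function.update s i (Function.update (s i) j c))) n := by
    refine Filter.eventually_all.2 fun i => ?_
    have b1 := rp_sum (k := k) Finset.univ (fun j : Fin r => ∑ c : Nx g,
      G (s i j) c * φ (Function.update s i (Function.update (s i) j c)))
    have b2 : ∀ᶠ n in HF, ∀ j : Fin r, rp (∑ c : Nx g,
        G (s i j) c * φ (Function.update s i (Function.update (s i) j c))) n =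
          ∑ c : Nx g, rp (G (s i j) c) n *
            rp (φ (Function.update s i (Function.update (s i) j c))) n :=
      Filter.eventually_all.2 fun j => Q15_sum _ _
    filter_upwards [b1, b2] with n e1 e2
    exact e1.trans (Finset.sum_congr rfl fun j _ => e2 j)
  filter_upwards [a1, a2] with n e1 e2
  exact e1.trans (Finset.sum_congr rfl fun i _ => e2 i)

theorem rp_vanP {k : ℕ → Type} [∀ n, Field (k n)] {g r m : ℕ} (h : r ≤ g) {φ : (Fin m → Px g r) → (LL k)[X]}
    (hφ : VanP h φ) : ∀ᶠ n in HF, VanP h fun s => rp (φ s) n := by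
  have h1 := rp_van ((vanP_iff h φ).1 hφ)
  filter_upwards [h1, Q15_rp_ti h φ] with n e1 e2
  rw [vanP_iff]
  have e3 : (fun s => rp (ti h φ s) n) = ti h (fun t => rp (φ t) n) := funext e2
  rw [← e3]
  exact e1

theorem rp_opP {k : ℕ → Type} [∀ n, Field (k n)] {g r m : ℕ} (Δ : (LL k)[X]) (G : Matrix (Nx g) (Nx g) (LL k)[X])
    (φ : (Fin m → Px g r) → (LL k)[X]) :
    ∀ᶠ n in HF, (fun s => rp (opP Δ G φ s) n) = opP (rp Δ n) (mr G n) fun s => rp (φ s) n := by
  have h : ∀ᶠ n in HF, ∀ s, rp (opP Δ G φ s) n = opP (rp Δ n) (mr G n) (fun s => rp (φ s) n) s := by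
    refine Filter.eventually_all.2 fun s => ?_
    filter_upwards [rp_add (Δ * derivative (φ s)) (actP G φ s), rp_mul Δ (derivative (φ s)),
      rp_derivative (φ s), Q15_act G φ s] with n e1 e2 e3 e4
    calc rp (opP Δ G φ s) n = rp (Δ * derivative (φ s) + actP G φ s) n := rfl
      _ = rp Δ n * derivative (rp (φ s) n) + actP (mr G n) (fun s => rp (φ s) n) s := by
          rw [e1, e2, e3, e4]
      _ = opP (rp Δ n) (mr G n) (fun s => rp (φ s) n) s := rfl
  filter_upwards [h] with n hn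
  exact funext hn

end MPadcIP
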