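import Pool.Agent.Lib.MP_adc574_ag_IP.Q13
import Pool.Agent.Lib.MP_adc574_ag_IP.Q15

/-!
# LEAF Q16: forms which vanish to high order (medium-, copy of `vanish_ord2` in PC/N1.lean)

Copy of `vanish_ord2` (PC/N1.lean) with `WSP_induction`, `rp_vanP`, `rp_opP`, `evp_van_U` (Q7; `(hD n).isoU`, `(hD n).rkU _ (hα n)`), `evp_add`, `evp_smul`, and for the operator
`derivative_evp` (Q3) with `(hD n).horU`: `(D n).Δ * derivative (evp (pl U) φ) = evp (pl U) (opP (D n).Δ (D n).G φ)`.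
-/

set_option autoImplicit false

namespace MPadcIP

open Polynomial Matrix MPadcGM MPadcOA MPadcPC

theorem vanish_ordP {k : ℕ → Type} [∀ n, Field (k n)] {g r m c : ℕ} (h : r ≤ g) (p : ℕ → ℕ) (D : ∀ n, FrP g r (k n))
    (hD : ∀ n, (D n).Ok c) (Φ : ∀ n, (Fin m → Px g r) → (k n)[X]) (α : ∀ n, k n) (hα : ∀ n, (D n).Δ.eval (α n) ≠ 0)
    (hdvd : ∀ n, (X - C (α n)) ^ p n ∣ evp (pl (D n).U) (Φ n)) (Δ' : (LL k)[X]) (G' : Matrix (Nx g) (Nx g) (LL k)[X])
    (Φ' : (Fin m → Px g r) → (LL k)[X]) (hΔ : ∀ᶠ n in HF, rp Δ' n = (D n).Δ) (hG : ∀ᶠ n in HF, mr G' n = (D n).G)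
    (hΦ : ∀ᶠ n in HF, (fun s => rp (Φ' s) n) = Φ n) (ξ : (Fin m → Px g r) → (LL k)[X]) (hξ : ξ ∈ WSP h Δ' G' Φ') :
    ∃ e : ℕ, ∀ᶠ n in HF, (X - C (α n)) ^ (p n - e) ∣ evp (pl (D n).U) (fun s => rp (ξ s) n) := by
  have key : ∀ ξ : (Fin m → Px g r) → (LL k)[X], ξ ∈ WSP h Δ' G' Φ' →
      (fun ξ : (Fin m → Px g r) → (LL k)[X] => ∃ e : ℕ, ∀ᶠ n in HF,
        (X - C (α n)) ^ (p n - e) ∣ evp (pl (D n).U) (fun s => rp (ξ s) n)) ξ := by
    apply WSP_induction
    · refine ⟨0, ?_⟩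
      filter_upwards [hΦ] with n hn
      rw [hn, Nat.sub_zero]
      exact hdvd n
    · intro x hx
      refine ⟨0, ?_⟩
      have h0 := rp_vanP h hx
      filter_upwards [h0] with n hn
      rw [evp_van_U h (D n).U (hD n).isoU (α n) ((hD n).rkU _ (hα n)) hn]
      exact dvd_zero _
    · rintro x y ⟨e, h1⟩ ⟨e', h1'⟩
      refine ⟨max e e', ?_⟩
      have h0 : ∀ᶠ n in HF, ∀ s, rp (x s + y s) n = rp (x s) n + rp (y s) n :=
        Filter.eventually_all.2 fun s => rp_add (x s) (y s)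
      filter_upwards [h1, h1', h0] with n h1 h2 h3
      have h4 : (fun s => rp ((x + y) s) n) = (fun s => rp (x s) n) + fun s => rp (y s) n :=
        funext h3
      rw [h4, evp_add]
      exact dvd_add ((pow_dvd_pow _ (Nat.sub_le_sub_left (le_max_left e e') _)).trans h1)
        ((pow_dvd_pow _ (Nat.sub_le_sub_left (le_max_right e e') _)).trans h2)
    · rintro a x ⟨e, h1⟩
      refine ⟨e, ?_⟩
      have h0 : ∀ᶠ n in HF, ∀ s, rp (a * x s) n = rp a n * rp (x s) n :=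
        Filter.eventually_all.2 fun s => rp_mul a (x s)
      filter_upwards [h1, h0] with n h1 h3
      have h4 : (fun s => rp ((a • x) s) n) = rp a n • fun s => rp (x s) n := by
        funext s
        exact h3 s
      rw [h4, evp_smul]
      exact dvd_mul_of_dvd_right h1 _
    · rintro x ⟨e, h1⟩
      refine ⟨e + 1, ?_⟩
      have h0 := rp_opP Δ' G' x
      filter_upwards [h1, h0, hΔ, hG] with n h1 h2 h3 h4
      rw [h2, h3, h4, ← derivative_evp (D n).Δ (D n).G (pl (D n).U) (hD n).horU, ← Nat.sub_sub]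
      exact dvd_mul_of_dvd_right (pow_dvd_der (α n) _ _ h1) _
    · rintro d x hd ⟨e, h1⟩
      refine ⟨e + d.natDegree, ?_⟩
      have h0 : ∀ᶠ n in HF, ∀ s, rp (d * x s) n = rp d n * rp (x s) n :=
        Filter.eventually_all.2 fun s => rp_mul d (x s)
      have h0' : ∀ᶠ n in HF, rp d n ≠ 0 := rp_ne_zero hd
      filter_upwards [h1, h0, h0'] with n h1 h3 h5
      have h4 : (fun s => rp ((d • x) s) n) = rp d n • fun s => rp (x s) n := by
        funext s
        exact h3 s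
      rw [h4, evp_smul] at h1
      rw [← Nat.sub_sub]
      exact pow_dvd_of_mul (α n) (p n - e) d.natDegree (rp d n) _ h5 (rp_natDegree d n) h1
  exact key ξ hξ

end MPadcIP
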