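import Pool.Agent.Lib.MP_adc574_ag_IP.Q7

/-!
# LEAF Q17: the frame over the ultraproduct (medium-, 3, copies of `ev_Ub`, `iso_Ub`, `li_Ub` in PC/N1.lean)

`UbP D α` is the value of the frame at `α`, over the ultraproduct. Copies of the proofs in PC/N1.lean (`Fin r` in place of `Fin g` for the rows; the private `N1_U`, `N1_JJ`, `N1_ua`, `N1_un`
have to be copied with the prefix `Q17_`), with `evp_map`, `pl_map` (Q3) in place of `ev_map`, `li_inv` (Q7) in place of `li_iff_inv`.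
-/

set_option autoImplicit false

namespace MPadcIP

open Polynomial Matrix MPadcGM MPadcOA MPadcPC

/-- The frame `U(α)` over the ultraproduct. -/
noncomputable def UbP {k : ℕ → Type} [∀ n, Field (k n)] {g r : ℕ} (D : ∀ n, FrP g r (k n)) (α : ∀ n, k n) :
    Matrix (Fin r) (Nx g) (LL k) :=
  fun i l => cl fun n => ((D n).U i l).eval (α n)

/-- the frame over the product ring -/
private noncomputable def Q17_U {k : ℕ → Type} [∀ n, Field (k n)] {g r : ℕ} (D : ∀ n, FrP g r (k n)) (α : ∀ n, k n) :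
    Matrix (Fin r) (Nx g) (∀ n, k n) :=
  fun i l n => ((D n).U i l).eval (α n)

private theorem Q17_JJ {R S : Type*} [CommRing R] [CommRing S] (g : ℕ) (f : R →+* S) : (JJ g R).map f = JJ g S := by
  unfold JJ
  rw [Matrix.fromBlocks_map]
  congr 1
  · exact Matrix.map_zero _ (map_zero f)
  · exact Matrix.map_one _ (map_zero f) (map_one f)
  · ext i j
    simp only [Matrix.map_apply, Matrix.neg_apply, map_neg]
    rw [Matrix.one_apply, Matrix.one_apply]
    split_ifs
    · rw [map_one]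
    · rw [map_zero]
  · exact Matrix.map_zero _ (map_zero f)

private theorem Q17_ua {k : ℕ → Type} [∀ n, Field (k n)] {g r : ℕ} (D : ∀ n, FrP g r (k n)) (α : ∀ n, k n) :
    (Q17_U D α).map (ultMk (Filter.hyperfilter ℕ) k) = UbP D α := rfl

private theorem Q17_un {k : ℕ → Type} [∀ n, Field (k n)] {g r : ℕ} (D : ∀ n, FrP g r (k n)) (α : ∀ n, k n) (n : ℕ) :
    (Q17_U D α).map (Pi.evalRingHom k n) = (D n).U.map (evalRingHom (α n)) := rfl

private theorem Q17_map {R S : Type*} [CommRing R] [CommRing S] {g r m : ℕ} (f : R →+* S)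
    (U : Matrix (Fin r) (Nx g) R) (φ : (Fin m → Px g r) → R) :
    f (evp (pl U) φ) = evp (pl (U.map f)) fun s => f (φ s) := by
  rw [evp_map]
  exact congrArg (fun P => evp P fun s => f (φ s)) (funext fun t => pl_map f U t)

theorem evp_UbP {k : ℕ → Type} [∀ n, Field (k n)] {g r m : ℕ} (p : ℕ → ℕ) (hp : ∀ n, n ≤ p n) (D : ∀ n, FrP g r (k n))
    (α : ∀ n, k n) (ξ : (Fin m → Px g r) → (LL k)[X])
    (h : ∃ e : ℕ, ∀ᶠ n in HF, (X - C (α n)) ^ (p n - e) ∣ evp (pl (D n).U) (fun s => rp (ξ s) n)) :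
    evp (pl (UbP D α)) (fun s => (ξ s).eval (cl α)) = 0 := by
  obtain ⟨e, he⟩ := h
  have h1 : (fun s => (ξ s).eval (cl α)) = fun s =>
      ultMk (Filter.hyperfilter ℕ) k (fun n => (rp (ξ s) n).eval (α n)) := by
    funext s
    exact (rp_eval (ξ s) α).symm
  rw [h1, ← Q17_ua, ← Q17_map (ultMk (Filter.hyperfilter ℕ) k) (Q17_U D α)
    (fun s => fun n => (rp (ξ s) n).eval (α n)), ultMk_eq_zero]
  filter_upwards [he, ev_large p hp e] with n hn hn'
  have h2 := Q17_map (Pi.evalRingHom k n) (Q17_U D α)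
    (fun s : Fin m → Px g r => fun n => (rp (ξ s) n).eval (α n))
  rw [Q17_un] at h2
  have h3 := Q17_map (evalRingHom (α n)) (D n).U (fun s => rp (ξ s) n)
  refine (h2.trans h3.symm).trans ?_
  have h4 : (X - C (α n)) ∣ evp (pl (D n).U) (fun s => rp (ξ s) n) :=
    (dvd_pow_self _ (by omega)).trans hn
  exact dvd_iff_isRoot.1 h4

theorem iso_UbP {k : ℕ → Type} [∀ n, Field (k n)] {g r c : ℕ} (D : ∀ n, FrP g r (k n)) (hD : ∀ n, (D n).Ok c)
    (α : ∀ n, k n) : UbP D α * JJ g (LL k) * (UbP D α)ᵀ = 0 := by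
  have h0 : Q17_U D α * JJ g (∀ n, k n) * (Q17_U D α)ᵀ = 0 := by
    ext i j n
    have h1 : ((Q17_U D α * JJ g (∀ n, k n) * (Q17_U D α)ᵀ).map (Pi.evalRingHom k n)) = 0 := by
      rw [Matrix.map_mul, Matrix.map_mul, Q17_JJ, Matrix.transpose_map, Q17_un, ← Matrix.transpose_map,
        ← Q17_JJ g (evalRingHom (α n)), ← Matrix.map_mul, ← Matrix.map_mul, (hD n).isoU]
      exact Matrix.map_zero _ (map_zero _)
    exact congrFun (congrFun h1 i) j
  have h2 := congrArg (fun M => Matrix.map M (ultMk (Filter.hyperfilter ℕ) k)) h0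
  beta_reduce at h2
  rw [Matrix.map_mul, Matrix.map_mul, Q17_JJ, Matrix.transpose_map, Q17_ua] at h2
  exact h2.trans (Matrix.map_zero _ (map_zero _))

theorem li_UbP {k : ℕ → Type} [∀ n, Field (k n)] {g r c : ℕ} (D : ∀ n, FrP g r (k n)) (hD : ∀ n, (D n).Ok c)
    (α : ∀ n, k n) (hα : ∀ n, (D n).Δ.eval (α n) ≠ 0) : LinearIndependent (LL k) fun i => UbP D α i := by
  have h1 : ∀ n, ∃ V : Matrix (Nx g) (Fin r) (k n), (D n).U.map (evalRingHom (α n)) * V = 1 := fun n =>
    (li_inv _).1 ((hD n).rkU (α n) (hα n))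
  choose V hV using h1
  refine (li_inv _).2 ⟨fun l i => cl fun n => V n l i, ?_⟩
  obtain ⟨W, hW⟩ : ∃ W : Matrix (Nx g) (Fin r) (∀ n, k n), W = fun l i n => V n l i := ⟨_, rfl⟩
  have h0 : Q17_U D α * W = 1 := by
    ext i j n
    have h2 : ((Q17_U D α * W).map (Pi.evalRingHom k n)) =
        (1 : Matrix (Fin r) (Fin r) (∀ n, k n)).map (Pi.evalRingHom k n) := by
      rw [Matrix.map_mul, Q17_un, hW]
      refine (hV n).trans ?_
      exact (Matrix.map_one _ (map_zero _) (map_one _)).symm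
    exact congrFun (congrFun h2 i) j
  have h2 := congrArg (fun M => Matrix.map M (ultMk (Filter.hyperfilter ℕ) k)) h0
  beta_reduce at h2
  rw [Matrix.map_mul, Q17_ua, hW] at h2
  exact h2.trans (Matrix.map_one _ (map_zero _) (map_one _))

end MPadcIP
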