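import Pool.Agent.Lib.MP_adc574_ag_IP.Q4
import Pool.Agent.Lib.MP_adc574_ag_IP.Q14
import Pool.Agent.Lib.MP_adc574_ag_IP.Q16
import Pool.Agent.Lib.MP_adc574_ag_IP.Q17

/-!
# LEAF Q18: big monodromy implies the non-vanishing theorem (medium-, copy of `nv2_ult` in PC/N2.lean)

Copy of `nv2_ult` (PC/N2.lean): `all_vanP h (WSP h Δ' G' Φ')` with `WSP_sat`, `WSP_van`, `WSP_opP`, `bigP_of_big hg r Δ' G' (hBig ..)`, `UbP D α`, `iso_UbP`, `li_UbP`, `evp_UbP`, `vanish_ordP`,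
`WSP_self`, `rp_vanP`.
-/

set_option autoImplicit false

namespace MPadcIP

open Polynomial Matrix MPadcGM MPadcOA MPadcPC

theorem nvP_ult {k : ℕ → Type} [∀ n, Field (k n)] {g r m A c : ℕ} (hg : 0 < g) (h : r ≤ g) (p : ℕ → ℕ)
    [∀ n, CharP (k n) (p n)] (hp : ∀ n, n ≤ p n) (D : ∀ n, FrP g r (k n)) (hD : ∀ n, (D n).Ok c)
    (hBig : ∀ (Δ' : (LL k)[X]) (G' : Matrix (Nx g) (Nx g) (LL k)[X]), (∀ᶠ n in HF, rp Δ' n = (D n).Δ) →
      (∀ᶠ n in HF, mr G' n = (D n).G) → MPadcPC.Big Δ' G')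
    (Φ : ∀ n, (Fin m → Px g r) → (k n)[X]) (hA : ∀ n s, (Φ n s).natDegree ≤ A) (α : ∀ n, k n)
    (hα : ∀ n, (D n).Δ.eval (α n) ≠ 0)
    (hdvd : ∀ n, (X - C (α n)) ^ p n ∣ evp (pl (D n).U) (Φ n)) : ∃ n, VanP h (Φ n) := by
  have : CharZero (LL k) := charZero_LL p hp
  obtain ⟨Δ', -, hΔ⟩ := exists_rp (k := k) (fun n => (D n).Δ) c (Filter.Eventually.of_forall fun n => (hD n).degD)
  obtain ⟨G', hG⟩ := exists_mr (fun n => (D n).G) c fun n => (hD n).degG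
  have hs : G' * JJ g (LL k)[X] + JJ g (LL k)[X] * G'ᵀ = 0 := symp_lift (fun n => (D n).G) (fun n => (hD n).symp) G' hG
  have hex : ∀ s, ∃ P : (LL k)[X], P.natDegree ≤ A ∧ ∀ᶠ n in HF, rp P n = Φ n s := fun s =>
    exists_rp (fun n => Φ n s) A (Filter.Eventually.of_forall fun n => hA n s)
  choose Φ' _ hΦ' using hex
  have hΦ : ∀ᶠ n in HF, (fun s => rp (Φ' s) n) = Φ n := by
    filter_upwards [Filter.eventually_all.2 hΦ'] with n hn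
    exact funext hn
  have hall := all_vanP h (WSP h Δ' G' Φ') (fun d hd x hx => WSP_sat h d hd x hx) (fun x hx => WSP_van h hx)
    (fun u v x hx => bigP_of_big hg r Δ' G' (hBig Δ' G' hΔ hG) m (WSP h Δ' G' Φ') (fun d hd x hx => WSP_sat h d hd x hx)
      (fun x hx => WSP_opP h hs hx) u v x hx) (cl α) (UbP D α) (iso_UbP D hD α)
    (li_UbP D hD α hα)
    (fun x hx => evp_UbP p hp D α x (vanish_ordP h p D hD Φ α hα hdvd Δ' G' Φ' hΔ hG hΦ x hx))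
  have hv : ∀ᶠ n in HF, VanP h fun s => rp (Φ' s) n := rp_vanP h (hall Φ' (WSP_self h))
  obtain ⟨n, h1, h2⟩ := (hv.and hΦ).exists
  exact ⟨n, h2 ▸ h1⟩

end MPadcIP
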