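import Pool.Agent.Lib.MP_adc574_ag_IP.Q1

/-!
# LEAF Q2: `ti` is compatible with everything (medium-, 8 short statements)

Definitions: IP/Defs.lean; `KS`, `opD` in OA/N_Defs.lean.

* `ti_map`: `map_mul`, `map_prod`, `map_sum`, `map_intCast`, `apply_ite` (model `mulz_map` in OA/S4.lean). `ti_add`, `ti_smul`, `ti_zero`: `add_mul`, `mul_assoc`.
* `ti_derivative`: the second factor of `ti h Φ s` is the image `C z` of the same expression over `R` (as in `ti_map` for `C`), so its derivative is zero.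
* `ti_coeff`: the same, `Polynomial.coeff_mul_C`.
* `ti_actP`: `KS_mulVec` (OA/N_K1.lean): `(KS A *ᵥ ψ) s = ∑ i, ∑ l, A (s i).2 l * ψ (update s i ((s i).1, l))`; the sum over `i : Fin (m * r)` is a sum over `(b, j)`
  (`Equiv.sum_comp finProdFinEquiv`, `Fintype.sum_prod_type`); for `i = finProdFinEquiv (b, j)` the first components of `update s i ((s i).1, l)` are those of `s`, so the
  second factor of `ti` does not change, and its second components are `update t b (update (t b) j l)` for `t b j = (s (finProdFinEquiv (b, j))).2`.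
* `ti_opP`: `opD Δ G ψ s = Δ * derivative (ψ s) + (KS G *ᵥ ψ) s`, `ti_derivative`, `ti_actP`, `ti_add`.
* `vanP_iff`: `Van (ti h φ)` is `ev (genU g R) (fun s => C (ti h φ s)) = 0`; `ti_map` for `MvPolynomial.C` and `ev_ti`; `VanP h φ` is `evp (gp h R) (fun s => C (φ s)) = 0` with
  `gp h R = pl (top h (genU g R))` (by definition, `evgp_apply`).
-/

set_option autoImplicit false

namespace MPadcIP

open Polynomial Matrix MPadcGM MPadcOA MPadcPC

/-- The second factor of `ti`. -/
private def Q2_e (R : Type*) [CommRing R] {g r m : ℕ} (h : r ≤ g) (s : Kx g (m * r)) : R :=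
  ∏ b : Fin m, ∑ σ : Equiv.Perm (Fin r), ((Equiv.Perm.sign σ : ℤ) : R) *
    ∏ j : Fin r, if (s (finProdFinEquiv (b, j))).1 = Fin.castLE h (σ j) then 1 else 0

/-- The second components. -/
private def Q2_t {g r m : ℕ} (s : Kx g (m * r)) : Fin m → Px g r := fun b j => (s (finProdFinEquiv (b, j))).2

private theorem Q2_ti {R : Type*} [CommRing R] {g r m : ℕ} (h : r ≤ g) (φ : (Fin m → Px g r) → R) (s : Kx g (m * r)) :
    ti h φ s = φ (Q2_t s) * Q2_e R h s := rfl

private theorem Q2_em {R S : Type*} [CommRing R] [CommRing S] {g r m : ℕ} (h : r ≤ g) (f : R →+* S) (s : Kx g (m * r)) :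
    f (Q2_e R h s) = Q2_e S h s := by
  unfold Q2_e
  rw [map_prod]
  refine Finset.prod_congr rfl fun b _ => ?_
  rw [map_sum]
  refine Finset.sum_congr rfl fun σ _ => ?_
  rw [map_mul, map_prod, map_intCast]
  congr 1
  refine Finset.prod_congr rfl fun j _ => ?_
  rw [apply_ite f, map_one, map_zero]

private theorem Q2_fst {g n : ℕ} (s : Kx g n) (i : Fin n) (l : Nx g) (i' : Fin n) :
    (Function.update s i ((s i).1, l) i').1 = (s i').1 := by
  by_cases h : i' = i
  · subst h
    rw [Function.update_self]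
  · rw [Function.update_of_ne h]

private theorem Q2_eu {R : Type*} [CommRing R] {g r m : ℕ} (h : r ≤ g) (s : Kx g (m * r)) (i : Fin (m * r)) (l : Nx g) :
    Q2_e R h (Function.update s i ((s i).1, l)) = Q2_e R h s := by
  unfold Q2_e
  simp only [Q2_fst]

private theorem Q2_tu {g r m : ℕ} (s : Kx g (m * r)) (b : Fin m) (j : Fin r) (l : Nx g) :
    Q2_t (Function.update s (finProdFinEquiv (b, j)) ((s (finProdFinEquiv (b, j))).1, l)) =
      Function.update (Q2_t s) b (Function.update (Q2_t s b) j l) := by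
  funext b' j'
  show (Function.update s (finProdFinEquiv (b, j)) ((s (finProdFinEquiv (b, j))).1, l) (finProdFinEquiv (b', j'))).2 = _
  by_cases hb : b' = b
  · subst hb
    rw [Function.update_self]
    by_cases hj : j' = j
    · subst hj
      rw [Function.update_self, Function.update_self]
    · rw [Function.update_of_ne hj, Function.update_of_ne]
      · rfl
      · intro h
        exact hj (Prod.mk.inj (finProdFinEquiv.injective h)).2
  · rw [Function.update_of_ne hb, Function.update_of_ne]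
    · rfl
    · intro h
      exact hb (Prod.mk.inj (finProdFinEquiv.injective h)).1

theorem ti_map {R S : Type*} [CommRing R] [CommRing S] {g r m : ℕ} (h : r ≤ g) (f : R →+* S) (φ : (Fin m → Px g r) → R)
    (s : Kx g (m * r)) : f (ti h φ s) = ti h (fun t => f (φ t)) s := by
  rw [Q2_ti, Q2_ti, map_mul, Q2_em]

theorem ti_zero {R : Type*} [CommRing R] {g r m : ℕ} (h : r ≤ g) : ti h (0 : (Fin m → Px g r) → R) = 0 := by
  funext s
  rw [Q2_ti]
  exact zero_mul _

theorem ti_add {R : Type*} [CommRing R] {g r m : ℕ} (h : r ≤ g) (φ ψ : (Fin m → Px g r) → R) :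
    ti h (φ + ψ) = ti h φ + ti h ψ := by
  funext s
  rw [Pi.add_apply, Q2_ti, Q2_ti, Q2_ti, Pi.add_apply, add_mul]

theorem ti_smul {R : Type*} [CommRing R] {g r m : ℕ} (h : r ≤ g) (c : R) (φ : (Fin m → Px g r) → R) :
    ti h (c • φ) = c • ti h φ := by
  funext s
  rw [Pi.smul_apply, Q2_ti, Q2_ti, Pi.smul_apply, smul_eq_mul, smul_eq_mul, mul_assoc]

theorem ti_derivative {R : Type*} [CommRing R] {g r m : ℕ} (h : r ≤ g) (Φ : (Fin m → Px g r) → R[X]) (s : Kx g (m * r)) :
    derivative (ti h Φ s) = ti h (fun t => derivative (Φ t)) s := by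
  rw [Q2_ti, Q2_ti, ← Q2_em h (C : R →+* R[X]) s, derivative_mul, derivative_C, mul_zero, add_zero]

theorem ti_coeff {R : Type*} [CommRing R] {g r m : ℕ} (h : r ≤ g) (Φ : (Fin m → Px g r) → R[X]) (n : ℕ) (s : Kx g (m * r)) :
    (ti h Φ s).coeff n = ti h (fun t => (Φ t).coeff n) s := by
  rw [Q2_ti, Q2_ti, ← Q2_em h (C : R →+* R[X]) s, coeff_mul_C]

theorem ti_actP {R : Type*} [CommRing R] {g r m : ℕ} (h : r ≤ g) (A : Matrix (Nx g) (Nx g) R) (φ : (Fin m → Px g r) → R) :
    KS A *ᵥ ti h φ = ti h (actP A φ) := by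
  funext s
  rw [KS_mulVec, Q2_ti, ← Equiv.sum_comp finProdFinEquiv, Fintype.sum_prod_type]
  unfold actP
  rw [Finset.sum_mul]
  refine Finset.sum_congr rfl fun b _ => ?_
  rw [Finset.sum_mul]
  refine Finset.sum_congr rfl fun j _ => ?_
  rw [Finset.sum_mul]
  refine Finset.sum_congr rfl fun l _ => ?_
  rw [Q2_ti, Q2_eu, Q2_tu, ← mul_assoc]
  rfl

theorem ti_opP {R : Type*} [CommRing R] {g r m : ℕ} (h : r ≤ g) (Δ : R[X]) (G : Matrix (Nx g) (Nx g) R[X])
    (Φ : (Fin m → Px g r) → R[X]) : opD Δ G (ti h Φ) = ti h (opP Δ G Φ) := by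
  funext s
  have h1 := congrFun (ti_actP h G Φ) s
  unfold opD
  rw [h1, ti_derivative, Q2_ti, Q2_ti, Q2_ti, ← mul_assoc, ← add_mul]
  rfl

theorem vanP_iff {R : Type*} [CommRing R] {g r m : ℕ} (h : r ≤ g) (φ : (Fin m → Px g r) → R) :
    VanP h φ ↔ Van (ti h φ) := by
  have h1 : evgp h m R φ = ev (genU g R) fun s => MvPolynomial.C (ti h φ s) := by
    rw [evgp_apply]
    show evp (pl (top h (genU g R))) (fun s => MvPolynomial.C (φ s)) = ev (genU g R) fun s => MvPolynomial.C (ti h φ s)
    rw [← ev_ti]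
    congr 1
    funext s
    exact (ti_map h MvPolynomial.C φ s).symm
  unfold VanP
  rw [h1]
  exact Iff.rfl

end MPadcIP
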