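import Pool.Agent.Lib.MP_adc574_ag_IP.Defs

/-!
# LEAF Q20: the minors of the rows of small level are horizontal (medium, 2)

* `natDegree_pl`: a determinant of size `r` with entries of degree `≤ d` (`Matrix.det_apply`, `natDegree_sum_le_of_forall_le`, `natDegree_prod_le`).
* `low_ok`: `ne`, `degD`, `degG`, `symp` are those of `D`; `isoU`: the entries of `U' * JJ * U'ᵀ` are entries of `D.U * JJ * D.Uᵀ`; `rkU`: `LinearIndependent.comp` with the injective map
  `i ↦ (e i).1`. `horU`: write `u i = D.U (e i).1`, `M i j = u i (t j)`, `pl _ t = ∑ σ, sign σ * ∏ j, u (σ j) (t j)` (`Matrix.det_apply'`). Its derivative is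
  `∑ σ, sign σ * ∑ j, (∏ j' ∈ univ.erase j, u (σ j') (t j')) * derivative (u (σ j) (t j))` (`derivative_prod_finset`), and
  `Δ * derivative (u (σ j) (t j)) = ∑ c, u (σ j) c * G c (t j) + ∑ b : Fin g, nu (e (σ j)).1 b * D.U b (t j)`. The first part gives
  `∑ j, ∑ c, G c (t j) * ∑ σ, sign σ * u (σ j) c * ∏ j' ∈ univ.erase j, u (σ j') (t j') = ∑ j, ∑ c, G c (t j) * pl _ (update t j c)`. The second part is
  `∑ i, ∑ b, nu (e i).1 b * det (M with the row i replaced by the row D.U b (t ·))` (put `i = σ j`; `Matrix.det_updateRow..`, `Matrix.det_apply'` for `M.updateRow i _`): if `nu (e i).1 b ≠ 0` then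
  `lv b < lv (e i).1 ≤ j₀`, so `b = (e i').1` for some `i' ≠ i` and the determinant has two equal rows (`Matrix.det_zero_of_row_eq`).
-/

set_option autoImplicit false

namespace MPadcIP

open Polynomial Matrix MPadcGM MPadcOA MPadcPC

private theorem Q20_der {k : Type} [Field k] {r : ℕ} (A : Matrix (Fin r) (Fin r) k[X]) :
    derivative A.det = ∑ j, (A.updateCol j fun i => derivative (A i j)).det := by
  have h1 : ∀ j : Fin r, (A.updateCol j fun i => derivative (A i j)).det =
      ∑ σ : Equiv.Perm (Fin r), (((Equiv.Perm.sign σ : ℤ) : k[X]) *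
        ((∏ i ∈ Finset.univ.erase j, A (σ i) i) * derivative (A (σ j) j))) := by
    intro j
    rw [Matrix.det_apply']
    refine Finset.sum_congr rfl fun σ _ => congrArg _ ?_
    rw [← Finset.prod_erase_mul _ _ (Finset.mem_univ j), updateCol_self]
    refine congrArg (· * derivative (A (σ j) j)) ?_
    exact Finset.prod_congr rfl fun i hi => updateCol_ne (Finset.ne_of_mem_erase hi)
  rw [Matrix.det_apply', derivative_sum, Finset.sum_congr rfl fun j _ => h1 j, Finset.sum_comm]
  refine Finset.sum_congr rfl fun σ _ => ?_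
  rw [← Finset.mul_sum, ← derivative_prod_finset, derivative_mul, derivative_intCast, zero_mul,
    zero_add]

private theorem Q20_swap {S : Type*} [CommRing S] {r : ℕ} (A B : Matrix (Fin r) (Fin r) S) :
    ∑ j, (A.updateCol j fun i => B i j).det = ∑ i, (A.updateRow i (B i)).det := by
  have h1 : ∀ j, (A.updateCol j fun i => B i j).det = ∑ i, A.adjugate j i * B i j := by
    intro j
    rw [← cramer_apply, cramer_eq_adjugate_mulVec]
    rfl
  have h2 : ∀ i, (A.updateRow i (B i)).det = ∑ j, A.adjugate j i * B i j := by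
    intro i
    rw [← cramer_transpose_apply, cramer_eq_adjugate_mulVec, ← adjugate_transpose]
    rfl
  rw [Finset.sum_congr rfl fun j _ => h1 j, Finset.sum_congr rfl fun j _ => h2 j,
    Finset.sum_comm]

private theorem Q20_colsum {S ι : Type*} [CommRing S] [Fintype ι] {r : ℕ}
    (A : Matrix (Fin r) (Fin r) S) (j : Fin r) (a : ι → S) (f : ι → Fin r → S) :
    (A.updateCol j fun i => ∑ c, a c * f c i).det = ∑ c, a c * (A.updateCol j (f c)).det := by
  have h1 : (fun i => ∑ c, a c * f c i) = ∑ c, a c • f c := by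
    funext i
    rw [Finset.sum_apply]
    rfl
  rw [← cramer_apply, h1, map_sum, Finset.sum_apply]
  refine Finset.sum_congr rfl fun c _ => ?_
  rw [map_smul, Pi.smul_apply, smul_eq_mul, cramer_apply]

private theorem Q20_rowsum {S ι : Type*} [CommRing S] [Fintype ι] {r : ℕ}
    (A : Matrix (Fin r) (Fin r) S) (i : Fin r) (a : ι → S) (f : ι → Fin r → S) :
    (A.updateRow i fun j => ∑ c, a c * f c j).det = ∑ c, a c * (A.updateRow i (f c)).det := by
  have h1 : (fun j => ∑ c, a c * f c j) = ∑ c, a c • f c := by
    funext j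
    rw [Finset.sum_apply]
    rfl
  rw [← cramer_transpose_apply, h1, map_sum, Finset.sum_apply]
  refine Finset.sum_congr rfl fun c _ => ?_
  rw [map_smul, Pi.smul_apply, smul_eq_mul, cramer_transpose_apply]

theorem natDegree_pl {k : Type} [Field k] {g r : ℕ} (U : Matrix (Fin r) (Nx g) k[X]) (d : ℕ)
    (hU : ∀ i l, (U i l).natDegree ≤ d) (t : Px g r) : (pl U t).natDegree ≤ r * d := by
  unfold pl
  rw [Matrix.det_apply']
  refine natDegree_sum_le_of_forall_le _ _ fun σ _ => ?_
  refine natDegree_mul_le.trans ?_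
  rw [natDegree_intCast, zero_add]
  refine (natDegree_prod_le _ _).trans ?_
  refine (Finset.sum_le_sum fun i _ => hU (σ i) (t i)).trans ?_
  rw [Finset.sum_const, Finset.card_univ, Fintype.card_fin, smul_eq_mul]

theorem low_ok {g : ℕ} {k : Type} [Field k] (D : FrL g k) (lv : Fin g → ℕ) (c : ℕ) (hD : D.Ok lv c) (j₀ r : ℕ)
    (e : Fin r ≃ {a : Fin g // lv a ≤ j₀}) : (D.low lv j₀ r e).Ok c := by
  refine { ne := hD.ne, degD := hD.degD, degG := hD.degG, symp := hD.symp, horU := fun t => ?_,
           isoU := ?_, rkU := fun α hα => ?_ }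
  · set A : Matrix (Fin r) (Fin r) k[X] := Matrix.of fun i j => D.U (e i).1 (t j) with hA
    set B : Matrix (Fin r) (Fin r) k[X] :=
      Matrix.of fun i j => ∑ b, D.nu (e i).1 b * D.U b (t j) with hB
    have h0 : pl (D.low lv j₀ r e).U t = A.det := rfl
    have hzero : ∑ j, (A.updateCol j fun i => B i j).det = 0 := by
      rw [Q20_swap]
      refine Finset.sum_eq_zero fun i _ => ?_
      have h1 := Q20_rowsum A i (fun b => D.nu (e i).1 b) (fun b j => D.U b (t j))
      refine h1.trans (Finset.sum_eq_zero fun b _ => ?_)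
      by_cases hb : lv b < lv (e i).1
      · have hb1 : lv b ≤ j₀ := hb.le.trans (e i).2
        have h2 : e (e.symm ⟨b, hb1⟩) = ⟨b, hb1⟩ := e.apply_symm_apply _
        have hne : e.symm ⟨b, hb1⟩ ≠ i := by
          intro h3
          rw [h3] at h2
          rw [h2] at hb
          exact lt_irrefl _ hb
        rw [det_zero_of_row_eq hne, mul_zero]
        rw [updateRow_self, updateRow_ne hne]
        funext j
        show D.U (e (e.symm ⟨b, hb1⟩)).1 (t j) = D.U b (t j)
        rw [h2]
      · rw [hD.nuT _ _ hb, zero_mul]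
    have hcol : ∀ j, D.Δ * (A.updateCol j fun i => derivative (A i j)).det =
        ∑ c, pl (D.low lv j₀ r e).U (Function.update t j c) * D.G c (t j) +
          (A.updateCol j fun i => B i j).det := by
      intro j
      have h1 : (D.Δ • fun i => derivative (A i j)) =
          (fun i => ∑ c, D.G c (t j) * D.U (e i).1 c) + fun i => B i j := by
        funext i
        show D.Δ * derivative (D.U (e i).1 (t j)) = _
        rw [hD.horU]
        show (D.U * D.G) (e i).1 (t j) + (D.nu * D.U) (e i).1 (t j) =
          ∑ c, D.G c (t j) * D.U (e i).1 c + ∑ b, D.nu (e i).1 b * D.U b (t j)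
        rw [Matrix.mul_apply, Matrix.mul_apply]
        refine congrArg (· + _) (Finset.sum_congr rfl fun c _ => mul_comm _ _)
      rw [← det_updateCol_smul, h1, det_updateCol_add]
      refine congrArg (· + _) ?_
      refine (Q20_colsum A j (fun c => D.G c (t j)) (fun c i => D.U (e i).1 c)).trans ?_
      refine Finset.sum_congr rfl fun c _ => ?_
      rw [mul_comm]
      refine congrArg (· * _) (congrArg Matrix.det ?_)
      ext1 i j'
      show _ = D.U (e i).1 (Function.update t j c j')
      by_cases hj : j' = j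
      · subst hj
        rw [updateCol_self, Function.update_self]
      · rw [updateCol_ne hj, Function.update_of_ne hj]
        rfl
    show D.Δ * derivative (pl (D.low lv j₀ r e).U t) =
      ∑ j, ∑ c, pl (D.low lv j₀ r e).U (Function.update t j c) * D.G c (t j)
    rw [h0, Q20_der, Finset.mul_sum, Finset.sum_congr rfl fun j _ => hcol j,
      Finset.sum_add_distrib, hzero, add_zero]
  · ext1 i j
    show (D.U * JJ g k[X] * D.Uᵀ) (e i).1 (e j).1 = 0
    rw [hD.isoU]
    rfl
  · exact (hD.rkU α hα).comp (fun i => (e i).1) (Subtype.val_injective.comp e.injective)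

end MPadcIP
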