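import Pool.Agent.Lib.MP_adc574_ag_IP.Q18
import Pool.Agent.Lib.MP_adc574_ag_IP.Q19
import Pool.Agent.Lib.MP_adc574_ag_IP.Q20

/-!
# LEAF Q21: the count for the pieces of an isotropic flag (medium, assembly)

PROOF. Let `r = card {a // lv a ≤ j₀}`, `e = (Fintype.equivFin _).symm`, `h : r ≤ g` (`Fintype.card_subtype_le`), `t₀ i = col (e i)`, injective. Let
`𝒦' p k D' := p.Prime ∧ CharP k p ∧ ∃ D, 𝒦 p k D ∧ D' = D.low lv j₀ r e` and apply `countP` (Q19) with `c` and `C₀' = r * C₀`: `hok` from `low_ok`, `natDegree_pl` (Q20; `r * (C₀ * p) = r * C₀ * p`).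
`hnv`: by contradiction as in `nv_fam` (PC/N3.lean): for given `m`, `L` suppose that for every `j` there are a prime `p j ≥ j`, `k j`, `D' j`, `Φ j`, `α j` with `¬ VanP h (Φ j)` (`choose`); then
`nvP_ult` (Q18) for `D' j = (D j).low ..` (its `Δ`, `G` are those of `D j`, so `hBig` is the hypothesis for `D j`) gives a contradiction.
At last `pl ((D.low ..).U.map (eval τ)) t₀ = det (fun a b : {a // lv a ≤ j₀} => (D.U a (col b)).eval τ)`: `Matrix.det_submatrix_equiv_self` / `Matrix.det_reindex_self` for `e`.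
`Z` is a finite set of `k`, `k` infinite.
-/

set_option autoImplicit false

namespace MPadcIP

open Polynomial Matrix MPadcGM MPadcOA MPadcPC

theorem countU {g : ℕ} (hg : 0 < g) (lv : Fin g → ℕ) (j₀ : ℕ) (col : {a : Fin g // lv a ≤ j₀} → Nx g)
    (hcol : Function.Injective col) (c C₀ : ℕ) (𝒦 : ∀ (_ : ℕ) (k : Type) [Field k], FrL g k → Prop)
    (hok : ∀ (p : ℕ) (k : Type) [Field k] (D : FrL g k), 𝒦 p k D → D.Ok lv c ∧ ∀ i l, (D.U i l).natDegree ≤ C₀ * p)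
    (hBig : ∀ (k : ℕ → Type) [∀ n, Field (k n)] (p : ℕ → ℕ) [∀ n, CharP (k n) (p n)] (_ : ∀ n, (p n).Prime)
      (_ : ∀ n, n ≤ p n) (D : ∀ n, FrL g (k n)), (∀ n, 𝒦 (p n) (k n) (D n)) →
      ∀ (Δ' : (LL k)[X]) (G' : Matrix (Nx g) (Nx g) (LL k)[X]), (∀ᶠ n in HF, rp Δ' n = (D n).Δ) →
        (∀ᶠ n in HF, mr G' n = (D n).G) → MPadcPC.Big Δ' G')
    (ε : ℝ) (hε : 0 < ε) : ∃ p₀ : ℕ, ∀ p : ℕ, p.Prime → p₀ ≤ p →
    ∀ (k : Type) [Field k] [CharP k p] [Infinite k] (D : FrL g k), 𝒦 p k D → ∀ n : ℕ, 0 < n → ∀ (γ : k) (Z : Finset k),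
    (∀ τ ∈ Z, τ ^ p ^ n * (1 + γ * τ) = τ ∧ D.Δ.eval τ ≠ 0 ∧
      (Matrix.of fun a b : {a : Fin g // lv a ≤ j₀} => (D.U a.1 (col b)).eval τ).det = 0) →
    (Z.card : ℝ) ≤ ε * (p : ℝ) ^ n := by
  classical
  obtain ⟨r, hr⟩ : ∃ r : ℕ, r = Fintype.card {a : Fin g // lv a ≤ j₀} := ⟨_, rfl⟩
  have h : r ≤ g := by
    rw [hr]
    exact (Fintype.card_subtype_le _).trans (Fintype.card_fin g).le
  obtain ⟨e⟩ : Nonempty (Fin r ≃ {a : Fin g // lv a ≤ j₀}) := by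
    rw [hr]
    exact ⟨(Fintype.equivFin _).symm⟩
  obtain ⟨p₀, hp₀⟩ := countP (g := g) (r := r) h (fun i => col (e i)) (hcol.comp e.injective) c (r * C₀)
    (fun p k _ D' => p.Prime ∧ CharP k p ∧ ∃ D : FrL g k, 𝒦 p k D ∧ D' = D.low lv j₀ r e)
    (by
      rintro p k _ D' ⟨-, -, D, hD, rfl⟩
      obtain ⟨h1, h2⟩ := hok p k D hD
      refine ⟨low_ok D lv c h1 j₀ r e, fun t => ?_⟩
      have h3 := natDegree_pl (D.low lv j₀ r e).U (C₀ * p) (fun i l => h2 (e i).1 l) t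
      rw [← mul_assoc] at h3
      exact h3)
    (by
      intro m L
      by_contra hcon
      push Not at hcon
      choose p hpr hp k ik ic D' hK Φ hA α hα hdvd hnv using hcon
      choose D hD1 hD2 using fun j => (hK j).2.2
      obtain ⟨j, hj⟩ := nvP_ult (k := k) (c := c) hg h p hp D' (fun j => by
          rw [hD2 j]
          exact low_ok (D j) lv c (hok (p j) (k j) (D j) (hD1 j)).1 j₀ r e)
        (fun Δ' G' h1 h2 => by
          refine hBig k p hpr hp D hD1 Δ' G' ?_ ?_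
          · filter_upwards [h1] with n hn
            rw [hn, hD2 n]
            rfl
          · filter_upwards [h2] with n hn
            rw [hn, hD2 n]
            rfl) Φ hA α hα hdvd
      exact hnv j hj) ε hε
  refine ⟨p₀, fun p hp hp' k _ _ _ D hD n hn γ Z hZ => ?_⟩
  refine hp₀ p hp hp' k (D.low lv j₀ r e) ⟨hp, inferInstance, D, hD, rfl⟩ n hn γ Z fun τ hτ => ?_
  obtain ⟨h1, h2, h3⟩ := hZ τ hτ
  refine ⟨h1, h2, ?_⟩
  rw [← h3, ← Matrix.det_submatrix_equiv_self e]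
  rfl

end MPadcIP
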