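import Pool.Agent.Lib.MP_adc574_ag_IP.Q21

/-!
# Q22: the count for a sequence of systems
-/

set_option autoImplicit false

namespace MPadcIP

open Polynomial Matrix MPadcGM MPadcOA MPadcPC

/-- The eventual form of `nvP_ult`. -/
theorem nvP_ev {k : ℕ → Type} [∀ n, Field (k n)] {g r m A c : ℕ} (hg : 0 < g) (h : r ≤ g) (p : ℕ → ℕ)
    [∀ n, CharP (k n) (p n)] (hp : ∀ n, n ≤ p n) (D : ∀ n, FrP g r (k n)) (hD : ∀ n, (D n).Ok c)
    (hBig : ∀ (Δ' : (LL k)[X]) (G' : Matrix (Nx g) (Nx g) (LL k)[X]), (∀ᶠ n in HF, rp Δ' n = (D n).Δ) →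
      (∀ᶠ n in HF, mr G' n = (D n).G) → MPadcPC.Big Δ' G')
    (Φ : ∀ n, (Fin m → Px g r) → (k n)[X]) (hA : ∀ n s, (Φ n s).natDegree ≤ A) (α : ∀ n, k n)
    (hα : ∀ n, (D n).Δ.eval (α n) ≠ 0)
    (hdvd : ∀ n, (X - C (α n)) ^ p n ∣ evp (pl (D n).U) (Φ n)) : ∀ᶠ n in HF, VanP h (Φ n) := by
  have : CharZero (LL k) := charZero_LL p hp
  obtain ⟨Δ', -, hΔ⟩ := exists_rp (k := k) (fun n => (D n).Δ) c (Filter.Eventually.of_forall fun n => (hD n).degD)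
  obtain ⟨G', hG⟩ := exists_mr (fun n => (D n).G) c fun n => (hD n).degG
  have hs : G' * JJ g (LL k)[X] + JJ g (LL k)[X] * G'ᵀ = 0 := symp_lift (fun n => (D n).G) (fun n => (hD n).symp) G' hG
  have hex : ∀ s, ∃ P : (LL k)[X], P.natDegree ≤ A ∧ ∀ᶠ n in HF, rp P n = Φ n s := fun s =>
    exists_rp (fun n => Φ n s) A (Filter.Eventually.of_forall fun n => hA n s)
  choose Φ' _ hΦ' using hex
  have hΦ : ∀ᶠ n in HF, (fun s => rp (Φ' s) n) = Φ n := by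
    filter_upwards [Filter.eventually_all.2 hΦ'] with n hn
    exact funext hn
  have hall := all_vanP h (WSP h Δ' G' Φ') (fun d hd x hx => WSP_sat h d hd x hx) (fun x hx => WSP_van h hx)
    (fun u v x hx => bigP_of_big hg r Δ' G' (hBig Δ' G' hΔ hG) m (WSP h Δ' G' Φ') (fun d hd x hx => WSP_sat h d hd x hx)
      (fun x hx => WSP_opP h hs hx) u v x hx) (cl α) (UbP D α) (iso_UbP D hD α)
    (li_UbP D hD α hα)
    (fun x hx => evp_UbP p hp D α x (vanish_ordP h p D hD Φ α hα hdvd Δ' G' Φ' hΔ hG hΦ x hx))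
  have hv : ∀ᶠ n in HF, VanP h fun s => rp (Φ' s) n := rp_vanP h (hall Φ' (WSP_self h))
  filter_upwards [hv, hΦ] with n h1 h2
  exact h2 ▸ h1

private theorem Q22_dim (A B M c' s s0 : ℕ) (δ : ℝ) (hδ : 0 < δ) (hs : 0 < s) (hB : 0 < B)
    (hA : A = B + c' * M) (hM : (M : ℝ) ≤ B / (2 * δ)) (h0 : s0 ≤ s)
    (hinc : (s : ℝ) - s0 ≤ δ * s) :
    M * (A + B + c' * M + 1) * (s - s0) < (A + 1) * B * s := by
  have hs' : (0 : ℝ) < s := by exact_mod_cast hs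
  have hB' : (0 : ℝ) < B := by exact_mod_cast hB
  have h1 : (M : ℝ) * δ ≤ B / 2 := by
    have := mul_le_mul_of_nonneg_right hM hδ.le
    calc (M : ℝ) * δ ≤ B / (2 * δ) * δ := this
      _ = B / 2 := by field_simp
  have h2 : (M : ℝ) * ((s : ℝ) - s0) ≤ B / 2 * s := by
    calc (M : ℝ) * ((s : ℝ) - s0) ≤ M * (δ * s) :=
          mul_le_mul_of_nonneg_left hinc (Nat.cast_nonneg M)
      _ = M * δ * s := by ring
      _ ≤ B / 2 * s := mul_le_mul_of_nonneg_right h1 hs'.le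
  have h3 : (((M * (A + B + c' * M + 1) * (s - s0) : ℕ)) : ℝ) < (((A + 1) * B * s : ℕ) : ℝ) := by
    have e1 : (((M * (A + B + c' * M + 1) * (s - s0) : ℕ)) : ℝ) =
        (2 * A + 1) * (M * ((s : ℝ) - s0)) := by
      have e2 : A + B + c' * M + 1 = 2 * A + 1 := by omega
      rw [e2]
      push_cast [Nat.cast_sub h0]
      ring
    rw [e1]
    have hA0 : (0 : ℝ) ≤ A := Nat.cast_nonneg A
    calc (2 * (A : ℝ) + 1) * (M * ((s : ℝ) - s0)) ≤ (2 * A + 1) * (B / 2 * s) :=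
          mul_le_mul_of_nonneg_left h2 (by positivity)
      _ < (2 * A + 2) * (B / 2 * s) := by
          apply mul_lt_mul_of_pos_right _ (by positivity)
          linarith
      _ = (((A + 1) * B * s : ℕ) : ℝ) := by push_cast; ring
  exact_mod_cast h3

/-- Stepanov's method for one system. -/
theorem countP1 {g r : ℕ} (h : r ≤ g) (t₀ : Px g r) (ht : Function.Injective t₀) (c C₀ : ℕ) (ε : ℝ) (hε : 0 < ε) :
    ∃ N : ℕ, ∀ p : ℕ, p.Prime → N ≤ p → ∀ (k : Type) [Field k] [CharP k p] [Infinite k] (D : FrP g r k), D.Ok c →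
    (∀ t, (pl D.U t).natDegree ≤ C₀ * p) →
    (∀ m ≤ N, ∀ Φ : (Fin m → Px g r) → k[X], (∀ s, (Φ s).natDegree ≤ N) → ∀ α : k, D.Δ.eval α ≠ 0 →
      (X - C α) ^ p ∣ evp (pl D.U) Φ → VanP h Φ) → ∀ n : ℕ, 0 < n → ∀ (γ : k) (Z : Finset k),
    (∀ τ ∈ Z, τ ^ p ^ n * (1 + γ * τ) = τ ∧ D.Δ.eval τ ≠ 0 ∧ pl (D.U.map (eval τ)) t₀ = 0) →
    (Z.card : ℝ) ≤ ε * (p : ℝ) ^ n := by
  obtain ⟨δ, hδdef⟩ : ∃ δ : ℝ, δ = min (ε / 8) (1 / 4) := ⟨_, rfl⟩
  have hδ : 0 < δ := by rw [hδdef]; exact lt_min (by positivity) (by norm_num)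
  have hδε : 8 * δ ≤ ε := by
    have := min_le_left (ε / 8) (1 / 4 : ℝ)
    rw [← hδdef] at this
    linarith
  have hδ4 : δ ≤ 1 / 4 := by rw [hδdef]; exact min_le_right _ _
  obtain ⟨J, hJ⟩ := exists_inc r (Fintype.card ((Fin g × Fin g) ⊕ Sym2 (Fin g))) δ hδ
  obtain ⟨B, hBdef⟩ : ∃ B : ℕ, B = J * C₀ + 1 := ⟨_, rfl⟩
  obtain ⟨M, hMdef⟩ : ∃ M : ℕ, M = ⌊(B : ℝ) / (2 * δ)⌋₊ := ⟨_, rfl⟩
  obtain ⟨c', hc'def⟩ : ∃ c' : ℕ, c' = c := ⟨_, rfl⟩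
  obtain ⟨A, hAdef⟩ : ∃ A : ℕ, A = B + c' * M := ⟨_, rfl⟩
  have hB0 : 0 < B := by omega
  have hB1 : (1 : ℝ) ≤ B := by exact_mod_cast hB0
  refine ⟨A + M + J, fun p hp hp₀ k _ _ _ D hD hU hnv n hn γ Z hZ => ?_⟩
  have : Fact p.Prime := ⟨hp⟩
  have hΔ0 := hD.ne
  -- the degree
  obtain ⟨m, hj, hinc'⟩ := hJ (fun j => sdimP h j k) (by
      show 0 < sdimP h 0 k
      rw [sdimP_zero]
      exact one_pos) (fun j => sdimP_le h j k)
  have hmono : sdimP h m k ≤ sdimP h (m + 1) k := sdimP_le_succ h t₀ ht m k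
  have hpos : 0 < sdimP h (m + 1) k := by
    have h1 : ∀ i : ℕ, 0 < sdimP h i k := by
      intro i
      induction i with
      | zero => rw [sdimP_zero]; exact one_pos
      | succ i ih => exact ih.trans_le (sdimP_le_succ h t₀ ht i k)
    exact h1 (m + 1)
  have hMle : (M : ℝ) ≤ B / (2 * δ) := by
    rw [hMdef]
    exact Nat.floor_le (by positivity)
  have hdim := Q22_dim A B M c' (sdimP h (m + 1) k) (sdimP h m k) δ hδ hpos hB0 hAdef hMle hmono hinc'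
  obtain ⟨Φ, hΦ1, hΦ2, hΦ3⟩ := exists_formsP h t₀ ht m B A M c' (fun b => tw B γ b)
    (fun b => natDegree_tw B γ b b.isLt.le) D.Δ D.G (hD.degD.trans (by omega))
    (fun i j => (hD.degG i j).trans (by omega)) hdim
  have hmJ : m + 1 ≤ J := hj
  -- the auxiliary polynomial
  have hne : auxP (p ^ n) (pl D.U) Φ ≠ 0 :=
    auxP_ne_zero h (p := p) n hn A D.Δ hΔ0 (pl D.U) Φ hΦ1 hΦ2 fun Ψ h1 α h2 h3 =>
      hnv (m + 1) (by omega) Ψ (fun s => (h1 s).trans (by omega)) α h2 h3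
  have hq : p ∣ p ^ n := dvd_pow_self p hn.ne'
  have hdvd : ∀ τ ∈ Z, (X - C τ) ^ M ∣ auxP (p ^ n) (pl D.U) Φ := by
    intro τ hτ
    obtain ⟨h1, h2, h3⟩ := hZ τ hτ
    refine pow_dvd_of_dd (p := p) D.Δ _ τ h2 M (by omega) fun e he => ?_
    exact dd_auxP_eval (p := p) h t₀ (p ^ n) hq D.Δ D.G D.U hD.horU hD.isoU τ (hD.rkU τ h2) Φ e γ
      (hΦ3 e he) τ h1 h3
  have hcard := card_mul_le _ hne Z M hdvd
  have hdeg := natDegree_auxP (p ^ n) (C₀ * p) A (pl D.U) hU Φ hΦ1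
  -- the inequality
  have hpq : p ≤ p ^ n := Nat.le_self_pow hn.ne' p
  have h1 : Z.card * M ≤ 2 * B * p ^ n := by
    have h2 : (m + 1) * (C₀ * p) ≤ J * C₀ * p ^ n := by
      rw [mul_assoc J]
      exact Nat.mul_le_mul hmJ (Nat.mul_le_mul_left _ hpq)
    have h3 : A ≤ p ^ n := by omega
    calc Z.card * M ≤ p ^ n * B + A + (m + 1) * (C₀ * p) := hcard.trans hdeg
      _ ≤ p ^ n * B + p ^ n + J * C₀ * p ^ n := by omega
      _ = 2 * B * p ^ n := by rw [hBdef]; ring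
  have hM1 : (B : ℝ) / (4 * δ) ≤ M := by
    have h2 : (B : ℝ) / (2 * δ) < M + 1 := by
      rw [hMdef]
      exact Nat.lt_floor_add_one _
    have h3 : (1 : ℝ) ≤ B / (4 * δ) := by
      rw [le_div_iff₀ (by positivity)]
      linarith
    have h4 : (B : ℝ) / (2 * δ) = B / (4 * δ) + B / (4 * δ) := by
      field_simp
      ring
    linarith
  have h5 : (Z.card : ℝ) * M ≤ 2 * B * (p : ℝ) ^ n := by exact_mod_cast h1
  have h6 : (Z.card : ℝ) * (B / (4 * δ)) ≤ 2 * B * (p : ℝ) ^ n :=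
    (mul_le_mul_of_nonneg_left hM1 (Nat.cast_nonneg _)).trans h5
  have hB' : (0 : ℝ) < B := by linarith
  have h7 : (Z.card : ℝ) ≤ 8 * δ * (p : ℝ) ^ n := by
    have h8 : (Z.card : ℝ) * (B / (4 * δ)) * (4 * δ / B) = Z.card := by
      field_simp
    rw [← h8]
    calc (Z.card : ℝ) * (B / (4 * δ)) * (4 * δ / B) ≤ 2 * B * (p : ℝ) ^ n * (4 * δ / B) :=
          mul_le_mul_of_nonneg_right h6 (by positivity)
      _ = 8 * δ * (p : ℝ) ^ n := by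
          field_simp
          ring
  exact h7.trans (mul_le_mul_of_nonneg_right hδε (by positivity))

/-- The non-vanishing theorem for a sequence of systems. -/
theorem nv_seq {k : ℕ → Type} [∀ n, Field (k n)] [∀ n, Infinite (k n)] {g r c : ℕ} (hg : 0 < g) (h : r ≤ g) (p : ℕ → ℕ)
    [∀ n, CharP (k n) (p n)] (hp : ∀ n, n ≤ p n) (D : ∀ n, FrP g r (k n)) (hD : ∀ n, (D n).Ok c)
    (hBig : ∀ (Δ' : (LL k)[X]) (G' : Matrix (Nx g) (Nx g) (LL k)[X]), (∀ᶠ n in HF, rp Δ' n = (D n).Δ) →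
      (∀ᶠ n in HF, mr G' n = (D n).G) → MPadcPC.Big Δ' G') (m L : ℕ) :
    ∀ᶠ n in HF, ∀ Φ : (Fin m → Px g r) → (k n)[X], (∀ s, (Φ s).natDegree ≤ L) → ∀ α : k n, (D n).Δ.eval α ≠ 0 →
      (X - C α) ^ p n ∣ evp (pl (D n).U) Φ → VanP h Φ := by
  classical
  by_contra hcon
  have hcon' := (Ultrafilter.eventually_not (f := Filter.hyperfilter ℕ)).2 hcon
  have hex : ∀ n, ∃ (Φ : (Fin m → Px g r) → (k n)[X]) (α : k n), (∀ s, (Φ s).natDegree ≤ L) ∧ (D n).Δ.eval α ≠ 0 ∧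
      (X - C α) ^ p n ∣ evp (pl (D n).U) Φ ∧
      ((¬ ∀ Φ : (Fin m → Px g r) → (k n)[X], (∀ s, (Φ s).natDegree ≤ L) → ∀ α : k n, (D n).Δ.eval α ≠ 0 →
        (X - C α) ^ p n ∣ evp (pl (D n).U) Φ → VanP h Φ) → ¬ VanP h Φ) := by
    intro n
    by_cases hn : ∀ Φ : (Fin m → Px g r) → (k n)[X], (∀ s, (Φ s).natDegree ≤ L) → ∀ α : k n, (D n).Δ.eval α ≠ 0 →
        (X - C α) ^ p n ∣ evp (pl (D n).U) Φ → VanP h Φ
    · obtain ⟨α, hα⟩ : ∃ α : k n, (D n).Δ.eval α ≠ 0 := by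
        by_contra hc
        push Not at hc
        exact (hD n).ne (Polynomial.funext fun x => by rw [hc x, eval_zero])
      refine ⟨0, α, fun s => ?_, hα, ?_, fun h' => absurd hn h'⟩
      · rw [Pi.zero_apply, natDegree_zero]
        exact Nat.zero_le _
      · have h0 : evp (pl (D n).U) (0 : (Fin m → Px g r) → (k n)[X]) = 0 := by
          unfold evp
          refine Finset.sum_eq_zero fun s _ => ?_
          rw [Pi.zero_apply, zero_mul]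
        rw [h0]
        exact dvd_zero _
    · have hn' := hn
      push Not at hn'
      obtain ⟨Φ, h1, α, h2, h3, h4⟩ := hn'
      exact ⟨Φ, α, h1, h2, h3, fun _ => h4⟩
  choose Φ α h1 h2 h3 h4 using hex
  have hev := nvP_ev (A := L) hg h p hp D hD hBig Φ h1 α h2 h3
  obtain ⟨n, hn1, hn2⟩ := (hev.and hcon').exists
  exact h4 n hn2 hn1

theorem countU_seq {g : ℕ} (hg : 0 < g) (lv : Fin g → ℕ) (j₀ : ℕ) (col : {a : Fin g // lv a ≤ j₀} → Nx g)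
    (hcol : Function.Injective col) (c C₀ : ℕ) (k : ℕ → Type) [∀ n, Field (k n)] [∀ n, Infinite (k n)] (p : ℕ → ℕ)
    [∀ n, CharP (k n) (p n)] (hpr : ∀ n, (p n).Prime) (hp : ∀ n, n ≤ p n) (D : ∀ n, FrL g (k n))
    (hok : ∀ n, (D n).Ok lv c ∧ ∀ i l, ((D n).U i l).natDegree ≤ C₀ * p n)
    (hBig : ∀ (Δ' : (LL k)[X]) (G' : Matrix (Nx g) (Nx g) (LL k)[X]), (∀ᶠ n in HF, rp Δ' n = (D n).Δ) →
      (∀ᶠ n in HF, mr G' n = (D n).G) → MPadcPC.Big Δ' G') (ε : ℝ) (hε : 0 < ε) :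
    ∀ᶠ n in HF, ∀ r : ℕ, 0 < r → ∀ (γ : k n) (Z : Finset (k n)),
      (∀ τ ∈ Z, τ ^ p n ^ r * (1 + γ * τ) = τ ∧ (D n).Δ.eval τ ≠ 0 ∧
        (Matrix.of fun a b : {a : Fin g // lv a ≤ j₀} => ((D n).U a.1 (col b)).eval τ).det = 0) →
      (Z.card : ℝ) ≤ ε * (p n : ℝ) ^ r := by
  classical
  obtain ⟨r, hr⟩ : ∃ r : ℕ, r = Fintype.card {a : Fin g // lv a ≤ j₀} := ⟨_, rfl⟩
  have h : r ≤ g := by
    rw [hr]
    exact (Fintype.card_subtype_le _).trans (Fintype.card_fin g).le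
  obtain ⟨e⟩ : Nonempty (Fin r ≃ {a : Fin g // lv a ≤ j₀}) := by
    rw [hr]
    exact ⟨(Fintype.equivFin _).symm⟩
  obtain ⟨N, hN⟩ := countP1 (g := g) (r := r) h (fun i => col (e i)) (hcol.comp e.injective) c (r * C₀) ε hε
  have hok' : ∀ n, ((D n).low lv j₀ r e).Ok c := fun n => low_ok (D n) lv c (hok n).1 j₀ r e
  have hnv : ∀ m L : ℕ, ∀ᶠ n in HF, ∀ Φ : (Fin m → Px g r) → (k n)[X], (∀ s, (Φ s).natDegree ≤ L) → ∀ α : k n,
      ((D n).low lv j₀ r e).Δ.eval α ≠ 0 → (X - C α) ^ p n ∣ evp (pl ((D n).low lv j₀ r e).U) Φ → VanP h Φ := fun m L =>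
    nv_seq hg h p hp (fun n => (D n).low lv j₀ r e) hok' hBig m L
  have hnv' : ∀ᶠ n in HF, ∀ m : Fin (N + 1), ∀ Φ : (Fin m → Px g r) → (k n)[X], (∀ s, (Φ s).natDegree ≤ N) → ∀ α : k n,
      ((D n).low lv j₀ r e).Δ.eval α ≠ 0 → (X - C α) ^ p n ∣ evp (pl ((D n).low lv j₀ r e).U) Φ → VanP h Φ :=
    Filter.eventually_all.2 fun m => hnv m N
  filter_upwards [hnv', ev_large p hp N] with n h1 h2 s hs γ Z hZ
  refine hN (p n) (hpr n) (by omega) (k n) ((D n).low lv j₀ r e) (hok' n) (fun t => ?_)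
    (fun m hm => h1 ⟨m, by omega⟩) s hs γ Z fun τ hτ => ?_
  · have h3 := natDegree_pl ((D n).low lv j₀ r e).U (C₀ * p n) (fun i l => (hok n).2 (e i).1 l) t
    rw [← mul_assoc] at h3
    exact h3
  · obtain ⟨h3, h4, h5⟩ := hZ τ hτ
    refine ⟨h3, h4, ?_⟩
    rw [← h5, ← Matrix.det_submatrix_equiv_self e]
    rfl

end MPadcIP
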