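import Pool.Agent.Lib.MP_adc574_ag_IP.Defs

/-!
# LEAF Q3: the values of the forms on tensors (medium-, 11 short statements)

Definitions: IP/Defs.lean; `dd Δ P = Δ * derivative P` in OA/Act.lean.

* `evp_map`, `evp_add`, `evp_smul`, `evp_sum`: as `ev_map`, `ev_add`, `ev_smul` (OA/N_K3.lean), `S12_ev_sum` (OA/S12.lean). `pl_map`: `RingHom.map_det`.
* `actP_sum`, `actP_map`: clear.
* `derivative_evp`: copy of `derivative_ev` / `ev_TT` (OA/Act.lean): `Δ * derivative (∏ i, P (s i)) = ∑ i, (∑ j, ∑ c, P (update (s i) j c) * G c (s i j)) * ∏_(i' ≠ i) P (s i')`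
  (`derivative_prod_finset`), and for fixed `i`, `j` the map `(s, c) ↦ (update s i (update (s i) j c), s i j)` is an involution of `(Fin m → Px g r) × Nx g`
  (`Function.update_self`, `Function.update_idem`, `Function.update_eq_self`) which exchanges the two sums (model `S1_one`).
* `dd_iterate_evp`: induction (as `dd_iterate_ev`).
* `natDegree_evp`, `natDegree_opP`, `natDegree_opP_iterate`: as OA/S8.lean (`natDegree_ev`, `natDegree_nab`, `natDegree_nab_iterate`).
-/

set_option autoImplicit false

namespace MPadcIP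

open Polynomial Matrix MPadcGM MPadcOA MPadcPC

private theorem Q3_perm {g r m : ℕ} (i : Fin m) (j : Fin r) :
    Function.Involutive fun p : (Fin m → Px g r) × Nx g =>
      (Function.update p.1 i (Function.update (p.1 i) j p.2), p.1 i j) := by
  intro p
  refine Prod.ext ?_ ?_
  · show Function.update (Function.update p.1 i (Function.update (p.1 i) j p.2)) i
      (Function.update (Function.update p.1 i (Function.update (p.1 i) j p.2) i) j (p.1 i j)) = p.1
    rw [Function.update_self, Function.update_idem, Function.update_idem, Function.update_eq_self]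
    exact Function.update_eq_self i p.1
  · show (Function.update p.1 i (Function.update (p.1 i) j p.2) i) j = p.2
    rw [Function.update_self, Function.update_self]

private theorem Q3_one {R : Type*} [CommRing R] {g r m : ℕ} (P : Px g r → R) (G : Matrix (Nx g) (Nx g) R)
    (φ : (Fin m → Px g r) → R) (i : Fin m) (j : Fin r) :
    ∑ s : Fin m → Px g r, (∑ c, G (s i j) c * φ (Function.update s i (Function.update (s i) j c))) *
        ∏ i, P (s i) =
      ∑ s : Fin m → Px g r, φ s * ((∑ c, P (Function.update (s i) j c) * G c (s i j)) *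
        ∏ i' ∈ Finset.univ.erase i, P (s i')) := by
  have h1 : ∀ s : Fin m → Px g r,
      (∑ c, G (s i j) c * φ (Function.update s i (Function.update (s i) j c))) * ∏ i, P (s i) =
      ∑ c, G (s i j) c * φ (Function.update s i (Function.update (s i) j c)) * (P (s i) *
        ∏ i' ∈ Finset.univ.erase i, P (s i')) := by
    intro s
    rw [Finset.sum_mul, Finset.mul_prod_erase Finset.univ (fun i => P (s i)) (Finset.mem_univ i)]
  have h2 : ∀ s : Fin m → Px g r, φ s * ((∑ c, P (Function.update (s i) j c) * G c (s i j)) *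
        ∏ i' ∈ Finset.univ.erase i, P (s i')) =
      ∑ c, φ s * (P (Function.update (s i) j c) * G c (s i j) * ∏ i' ∈ Finset.univ.erase i, P (s i')) := by
    intro s
    rw [Finset.sum_mul, Finset.mul_sum]
  rw [Finset.sum_congr rfl fun s _ => h1 s, Finset.sum_congr rfl fun s _ => h2 s,
    ← Fintype.sum_prod_type' (f := fun (s : Fin m → Px g r) (c : Nx g) =>
      G (s i j) c * φ (Function.update s i (Function.update (s i) j c)) * (P (s i) *
        ∏ i' ∈ Finset.univ.erase i, P (s i'))),
    ← Fintype.sum_prod_type' (f := fun (s : Fin m → Px g r) (c : Nx g) =>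
      φ s * (P (Function.update (s i) j c) * G c (s i j) * ∏ i' ∈ Finset.univ.erase i, P (s i')))]
  refine Fintype.sum_equiv (Function.Involutive.toPerm _ (Q3_perm i j)) _ _ fun p => ?_
  show G (p.1 i j) p.2 * φ (Function.update p.1 i (Function.update (p.1 i) j p.2)) * (P (p.1 i) *
      ∏ i' ∈ Finset.univ.erase i, P (p.1 i')) =
    φ (Function.update p.1 i (Function.update (p.1 i) j p.2)) *
      (P (Function.update (Function.update p.1 i (Function.update (p.1 i) j p.2) i) j (p.1 i j)) *
        G (p.1 i j) (Function.update p.1 i (Function.update (p.1 i) j p.2) i j) *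
          ∏ i' ∈ Finset.univ.erase i, P (Function.update p.1 i (Function.update (p.1 i) j p.2) i'))
  have h3 : ∏ i' ∈ Finset.univ.erase i, P (Function.update p.1 i (Function.update (p.1 i) j p.2) i') =
      ∏ i' ∈ Finset.univ.erase i, P (p.1 i') :=
    Finset.prod_congr rfl fun i' hi' => by rw [Function.update_of_ne (Finset.ne_of_mem_erase hi')]
  rw [h3, Function.update_self, Function.update_self, Function.update_idem, Function.update_eq_self]
  ring

private theorem Q3_prod {k : Type*} [Field k] {ι : Type*} (s : Finset ι) (f : ι → k[X]) (d : ℕ)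
    (h : ∀ i, (f i).natDegree ≤ d) : (∏ i ∈ s, f i).natDegree ≤ s.card * d := by
  refine (natDegree_prod_le s f).trans ?_
  refine (Finset.sum_le_card_nsmul s _ d fun i _ => h i).trans ?_
  rw [smul_eq_mul]

theorem evp_map {R S : Type*} [CommRing R] [CommRing S] {g r m : ℕ} (f : R →+* S) (P : Px g r → R)
    (φ : (Fin m → Px g r) → R) : f (evp P φ) = evp (fun t => f (P t)) fun s => f (φ s) := by
  unfold evp
  rw [map_sum]
  refine Finset.sum_congr rfl fun s _ => ?_
  rw [map_mul, map_prod]

theorem pl_map {R S : Type*} [CommRing R] [CommRing S] {g r : ℕ} (f : R →+* S) (U : Matrix (Fin r) (Nx g) R) (t : Px g r) :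
    f (pl U t) = pl (U.map f) t := by
  unfold pl
  rw [RingHom.map_det]
  rfl

theorem evp_add {R : Type*} [CommRing R] {g r m : ℕ} (P : Px g r → R) (φ ψ : (Fin m → Px g r) → R) :
    evp P (φ + ψ) = evp P φ + evp P ψ := by
  unfold evp
  rw [← Finset.sum_add_distrib]
  refine Finset.sum_congr rfl fun s _ => ?_
  rw [Pi.add_apply, add_mul]

theorem evp_smul {R : Type*} [CommRing R] {g r m : ℕ} (P : Px g r → R) (c : R) (φ : (Fin m → Px g r) → R) :
    evp P (c • φ) = c * evp P φ := by
  unfold evp
  rw [Finset.mul_sum]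
  refine Finset.sum_congr rfl fun s _ => ?_
  rw [Pi.smul_apply, smul_eq_mul, mul_assoc]

theorem evp_sum {R : Type*} [CommRing R] {g r m : ℕ} {ι : Type*} (S : Finset ι) (P : Px g r → R) (c : ι → R)
    (φ : ι → (Fin m → Px g r) → R) : evp P (fun s => ∑ b ∈ S, c b * φ b s) = ∑ b ∈ S, c b * evp P (φ b) := by
  unfold evp
  simp only [Finset.sum_mul, Finset.mul_sum]
  rw [Finset.sum_comm]
  refine Finset.sum_congr rfl fun b _ => Finset.sum_congr rfl fun s _ => ?_
  ring

theorem derivative_evp {k : Type*} [CommRing k] {g r m : ℕ} (Δ : k[X]) (G : Matrix (Nx g) (Nx g) k[X]) (P : Px g r → k[X])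
    (hP : ∀ t : Px g r, Δ * derivative (P t) = ∑ j, ∑ c, P (Function.update t j c) * G c (t j))
    (Φ : (Fin m → Px g r) → k[X]) : Δ * derivative (evp P Φ) = evp P (opP Δ G Φ) := by
  have h1 : evp P (opP Δ G Φ) = ∑ s, Δ * derivative (Φ s) * ∏ i, P (s i) + evp P (actP G Φ) := by
    unfold evp opP
    rw [← Finset.sum_add_distrib]
    exact Finset.sum_congr rfl fun s _ => add_mul _ _ _
  have h2 : evp P (actP G Φ) = ∑ s, Φ s * ∑ i, (∑ j, ∑ c, P (Function.update (s i) j c) * G c (s i j)) *
      ∏ i' ∈ Finset.univ.erase i, P (s i') := by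
    unfold evp actP
    have h3 : ∀ s : Fin m → Px g r,
        (∑ i, ∑ j, ∑ c, G (s i j) c * Φ (Function.update s i (Function.update (s i) j c))) * ∏ i, P (s i) =
          ∑ i, ∑ j, (∑ c, G (s i j) c * Φ (Function.update s i (Function.update (s i) j c))) * ∏ i, P (s i) := by
      intro s
      rw [Finset.sum_mul]
      refine Finset.sum_congr rfl fun i _ => ?_
      rw [Finset.sum_mul]
    have h4 : ∀ s : Fin m → Px g r,
        Φ s * ∑ i, (∑ j, ∑ c, P (Function.update (s i) j c) * G c (s i j)) *
          ∏ i' ∈ Finset.univ.erase i, P (s i') =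
        ∑ i, ∑ j, Φ s * ((∑ c, P (Function.update (s i) j c) * G c (s i j)) *
          ∏ i' ∈ Finset.univ.erase i, P (s i')) := by
      intro s
      rw [Finset.mul_sum]
      refine Finset.sum_congr rfl fun i _ => ?_
      rw [Finset.sum_mul, Finset.mul_sum]
    rw [Finset.sum_congr rfl fun s _ => h3 s, Finset.sum_congr rfl fun s _ => h4 s, Finset.sum_comm]
    rw [Finset.sum_comm (s := Finset.univ (α := Fin m → Px g r))]
    refine Finset.sum_congr rfl fun i _ => ?_
    rw [Finset.sum_comm]
    rw [Finset.sum_comm (s := Finset.univ (α := Fin m → Px g r))]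
    exact Finset.sum_congr rfl fun j _ => Q3_one P G Φ i j
  rw [h1, h2, ← Finset.sum_add_distrib]
  unfold evp
  rw [derivative_sum, Finset.mul_sum]
  refine Finset.sum_congr rfl fun s _ => ?_
  rw [derivative_mul, derivative_prod_finset, mul_add, ← mul_assoc]
  refine congrArg (fun z => Δ * derivative (Φ s) * ∏ i, P (s i) + z) ?_
  rw [mul_left_comm, Finset.mul_sum]
  refine congrArg (fun z => Φ s * z) (Finset.sum_congr rfl fun i _ => ?_)
  rw [mul_left_comm, hP, mul_comm]

theorem dd_iterate_evp {k : Type*} [CommRing k] {g r m : ℕ} (Δ : k[X]) (G : Matrix (Nx g) (Nx g) k[X]) (P : Px g r → k[X])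
    (hP : ∀ t : Px g r, Δ * derivative (P t) = ∑ j, ∑ c, P (Function.update t j c) * G c (t j))
    (Φ : (Fin m → Px g r) → k[X]) (e : ℕ) : (dd Δ)^[e] (evp P Φ) = evp P ((opP Δ G)^[e] Φ) := by
  induction e with
  | zero => rfl
  | succ e ih =>
    rw [Function.iterate_succ_apply', Function.iterate_succ_apply', ih]
    exact derivative_evp Δ G P hP _

theorem natDegree_evp {k : Type*} [Field k] {g r m : ℕ} (P : Px g r → k[X]) (d A : ℕ) (hP : ∀ t, (P t).natDegree ≤ d)
    (Φ : (Fin m → Px g r) → k[X]) (hΦ : ∀ s, (Φ s).natDegree ≤ A) : (evp P Φ).natDegree ≤ A + m * d := by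
  unfold evp
  refine natDegree_sum_le_of_forall_le _ _ fun s _ => ?_
  refine natDegree_mul_le.trans (Nat.add_le_add (hΦ s) ?_)
  refine (Q3_prod Finset.univ (fun i => P (s i)) d fun i => hP _).trans (le_of_eq ?_)
  rw [Finset.card_univ, Fintype.card_fin]

theorem natDegree_opP {k : Type*} [Field k] {g r m : ℕ} (Δ : k[X]) (G : Matrix (Nx g) (Nx g) k[X]) (c A : ℕ)
    (hΔ : Δ.natDegree ≤ c) (hG : ∀ i j, (G i j).natDegree ≤ c) (Φ : (Fin m → Px g r) → k[X])
    (hΦ : ∀ s, (Φ s).natDegree ≤ A) (s : Fin m → Px g r) : (opP Δ G Φ s).natDegree ≤ A + c := by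
  have h1 : (derivative (Φ s)).natDegree ≤ A :=
    (natDegree_derivative_le (Φ s)).trans ((Nat.sub_le _ _).trans (hΦ s))
  have h2 : (Δ * derivative (Φ s)).natDegree ≤ A + c := by
    refine natDegree_mul_le.trans ?_
    omega
  have h3 : (actP G Φ s).natDegree ≤ A + c := by
    unfold actP
    refine natDegree_sum_le_of_forall_le _ _ fun i _ => ?_
    refine natDegree_sum_le_of_forall_le _ _ fun j _ => ?_
    refine natDegree_sum_le_of_forall_le _ _ fun l _ => ?_
    refine natDegree_mul_le.trans ?_
    have h4 := hG (s i j) l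
    have h5 := hΦ (Function.update s i (Function.update (s i) j l))
    omega
  exact (natDegree_add_le _ _).trans (max_le h2 h3)

theorem natDegree_opP_iterate {k : Type*} [Field k] {g r m : ℕ} (Δ : k[X]) (G : Matrix (Nx g) (Nx g) k[X]) (c A : ℕ)
    (hΔ : Δ.natDegree ≤ c) (hG : ∀ i j, (G i j).natDegree ≤ c) (Φ : (Fin m → Px g r) → k[X])
    (hΦ : ∀ s, (Φ s).natDegree ≤ A) (e : ℕ) (s : Fin m → Px g r) : ((opP Δ G)^[e] Φ s).natDegree ≤ A + c * e := by
  induction e generalizing s with
  | zero =>
    rw [Function.iterate_zero, id_eq, Nat.mul_zero, Nat.add_zero]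
    exact hΦ s
  | succ e ih =>
    rw [Function.iterate_succ_apply']
    refine (natDegree_opP Δ G c (A + c * e) hΔ hG _ ih s).trans (le_of_eq ?_)
    ring

end MPadcIP
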