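import Pool.Agent.Lib.MP_adc574_ag_IP.Defs

/-!
# LEAF Q4: big monodromy on the forms on tensors (medium)

Definitions: `Big` (PC/N2.lean) is the statement for the modules of forms `Kx g m → F[X]`, `Kx g m = Fin m → Fin g × Nx g`; `BigP` the one for
`(Fin m → Px g r) → F[X]`.

PROOF. Let `m`, `W` be given as in `BigP`. For `s : Fin (m * r) → Nx g` let `e s : Fin m → Px g r`, `e s b j = s (finProdFinEquiv (b, j))`; for a form
`x : Kx g (m * r) → F[X]` and `ρ : Fin (m * r) → Fin g` let the slice `sl x ρ : (Fin m → Px g r) → F[X]` be `t ↦ x (i ↦ (ρ i, t b j))` with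
`(b, j) = finProdFinEquiv.symm i`. Let `W' = {x | ∀ ρ, sl x ρ ∈ W}`, a submodule. It is saturated (`sl (d • x) ρ = d • sl x ρ`). `sl (opD Δ G x) ρ = opP Δ G (sl x ρ)` and
`sl (KS A *ᵥ x) ρ = actP A (sl x ρ)` (`KS_mulVec` (OA/N_K1.lean): the first components are not changed; the sum over `i : Fin (m * r)` is the sum over `(b, j)`; the slice of the
updated index is the updated slice). So `Big` applies to `W'` (with `m * r`): `W'` is stable under `KS (tr ..)`. Given `x ∈ W`, choose `ρ₀ i = 0` (`hg : 0 < g`) and the form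
`x' s = x (the second components of s)` (all slices of `x'` are `x`), `x' ∈ W'`; the slice of `KS (tr ..) *ᵥ x' ∈ W'` is `actP (tr ..) x ∈ W`.
-/

set_option autoImplicit false

namespace MPadcIP

open Polynomial Matrix MPadcGM MPadcOA MPadcPC

/-- The slices of a form. -/
private def Q4_sl {F : Type} [Field F] {g m r : ℕ} (x : Kx g (m * r) → F[X]) (ρ : Fin (m * r) → Fin g) :
    (Fin m → Px g r) → F[X] :=
  fun t => x fun i => (ρ i, t (finProdFinEquiv.symm i).1 (finProdFinEquiv.symm i).2)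

private theorem Q4_upd {g m r : ℕ} (ρ : Fin (m * r) → Fin g) (t : Fin m → Px g r) (b : Fin m) (j : Fin r) (c : Nx g) :
    (fun i : Fin (m * r) => (ρ i, (Function.update t b (Function.update (t b) j c)) (finProdFinEquiv.symm i).1
      (finProdFinEquiv.symm i).2)) =
    Function.update (fun i : Fin (m * r) => (ρ i, t (finProdFinEquiv.symm i).1 (finProdFinEquiv.symm i).2))
      (finProdFinEquiv (b, j)) (ρ (finProdFinEquiv (b, j)), c) := by
  funext i
  obtain ⟨⟨b', j'⟩, rfl⟩ := (finProdFinEquiv : Fin m × Fin r ≃ Fin (m * r)).surjective i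
  by_cases h : (b', j') = (b, j)
  · rw [h, Function.update_self, Equiv.symm_apply_apply, Function.update_self, Function.update_self]
  · rw [Function.update_of_ne (fun h1 => h (finProdFinEquiv.injective h1)), Equiv.symm_apply_apply]
    by_cases hb : b' = b
    · subst hb
      have hj : j' ≠ j := fun hj => h (by rw [hj])
      rw [Function.update_self, Function.update_of_ne hj]
    · rw [Function.update_of_ne hb]

private theorem Q4_act {F : Type} [Field F] {g m r : ℕ} (A : Matrix (Nx g) (Nx g) F[X]) (x : Kx g (m * r) → F[X])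
    (ρ : Fin (m * r) → Fin g) : Q4_sl (KS A *ᵥ x) ρ = actP A (Q4_sl x ρ) := by
  funext t
  unfold Q4_sl actP
  rw [KS_mulVec, ← Equiv.sum_comp finProdFinEquiv, Fintype.sum_prod_type]
  refine Finset.sum_congr rfl fun b _ => Finset.sum_congr rfl fun j _ => Finset.sum_congr rfl fun c _ => ?_
  rw [← Q4_upd ρ t b j c]
  simp only [Equiv.symm_apply_apply]

private theorem Q4_op {F : Type} [Field F] {g m r : ℕ} (Δ : F[X]) (G : Matrix (Nx g) (Nx g) F[X])
    (x : Kx g (m * r) → F[X]) (ρ : Fin (m * r) → Fin g) : Q4_sl (opD Δ G x) ρ = opP Δ G (Q4_sl x ρ) := by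
  funext t
  have h := congrFun (Q4_act G x ρ) t
  unfold opP
  rw [← h]
  rfl

theorem bigP_of_big {F : Type} [Field F] {g : ℕ} (hg : 0 < g) (r : ℕ) (Δ : F[X]) (G : Matrix (Nx g) (Nx g) F[X])
    (h : MPadcPC.Big Δ G) : BigP r Δ G := by
  intro m W hsat hst u v x hx
  let W' : Submodule F[X] (Kx g (m * r) → F[X]) :=
    { carrier := {y | ∀ ρ : Fin (m * r) → Fin g, Q4_sl y ρ ∈ W}
      add_mem' := fun {y z} hy hz ρ => W.add_mem (hy ρ) (hz ρ)
      zero_mem' := fun ρ => W.zero_mem
      smul_mem' := fun c y hy ρ => W.smul_mem c (hy ρ) }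
  have hW' : ∀ y, y ∈ W' ↔ ∀ ρ : Fin (m * r) → Fin g, Q4_sl y ρ ∈ W := fun _ => Iff.rfl
  let x' : Kx g (m * r) → F[X] := fun s => x fun b j => (s (finProdFinEquiv (b, j))).2
  have hx' : ∀ ρ : Fin (m * r) → Fin g, Q4_sl x' ρ = x := by
    intro ρ
    funext t
    change x (fun b j => t (finProdFinEquiv.symm (finProdFinEquiv (b, j))).1
      (finProdFinEquiv.symm (finProdFinEquiv (b, j))).2) = x t
    simp only [Equiv.symm_apply_apply]
  have h1 := h (m * r) W' (fun d hd y hy ρ => hsat d hd _ (hy ρ))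
    (fun y hy => (hW' _).2 fun ρ => by rw [Q4_op]; exact hst _ (hy ρ)) u v x'
    ((hW' _).2 fun ρ => by rw [hx']; exact hx)
  have h2 := (hW' _).1 h1 fun _ => ⟨0, hg⟩
  rwa [Q4_act, hx'] at h2

end MPadcIP
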