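import Pool.Agent.Lib.MP_adc574_ag_IP.Defs

/-!
# LEAF Q5: an isotropic frame extends to a Lagrangian frame (medium, linear algebra)

PROOF. Induction on `g - r` (for all `r ≤ g`). If `r = g` then `castLE` is the identity (`subst`, `Fin.castLE_rfl`-type lemmas). If `r < g`: let `S ⊂ F ^ (Nx g)` be the span of
the rows (dimension `r`) and `S' = {v | ∀ i, U i ⬝ᵥ (JJ *ᵥ v) = 0}`, the kernel of a linear map to `Fin r → F`, so of dimension `≥ 2 g - r > r`
(`Module.finrank_fintype_fun_eq_card`, `Fintype.card (Nx g) = 2 g`; `LinearMap.finrank_range_add_finrank_ker`); so there is `v ∈ S'` which is not in `S`. The frame with the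
`r + 1` rows `U i`, `v` (`Fin.snoc`) has independent rows (`linearIndependent_fin_snoc`), and is isotropic: the entries of `U' * JJ * U'ᵀ` are `U' i ⬝ᵥ (JJ *ᵥ U' j)`, zero for
`i, j < r` by `hi`, for `j` the last and `i < r` by the choice of `v`, for `i` the last and `j < r` by antisymmetry (`(JJ)ᵀ = - JJ`, `JJ_transpose` in OA/N_T4.lean; it is
`Nx g = Fin g ⊕ Fin g`, `JJ = fromBlocks 0 1 (-1) 0`), for both the last `v ⬝ᵥ (JJ *ᵥ v) = ∑ a, (v (inl a) * v (inr a) - v (inr a) * v (inl a)) = 0`.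
By induction this frame extends to `V` with `g` rows; `castLE (r + 1 ≤ g) (castSucc i) = castLE h i`.
-/

set_option autoImplicit false

namespace MPadcIP

open Polynomial Matrix MPadcGM MPadcOA MPadcPC

private theorem Q5_B {F : Type} [Field F] {g : ℕ} (u v : Nx g → F) : u ⬝ᵥ (JJ g F *ᵥ v) =
    ∑ a : Fin g, (u (Sum.inl a) * v (Sum.inr a) - u (Sum.inr a) * v (Sum.inl a)) := by
  unfold JJ
  rw [dotProduct, Fintype.sum_sum_type, Finset.sum_sub_distrib, sub_eq_add_neg, ← Finset.sum_neg_distrib]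
  congr 1
  · refine Finset.sum_congr rfl fun a _ => ?_
    rw [Matrix.mulVec, dotProduct, Fintype.sum_sum_type]
    simp [Matrix.one_apply]
  · refine Finset.sum_congr rfl fun a _ => ?_
    rw [Matrix.mulVec, dotProduct, Fintype.sum_sum_type]
    simp [Matrix.one_apply]

private theorem Q5_anti {F : Type} [Field F] {g : ℕ} (u v : Nx g → F) : u ⬝ᵥ (JJ g F *ᵥ v) = -(v ⬝ᵥ (JJ g F *ᵥ u)) := by
  rw [Q5_B, Q5_B, ← Finset.sum_neg_distrib]
  exact Finset.sum_congr rfl fun a _ => by ring

private theorem Q5_self {F : Type} [Field F] {g : ℕ} (u : Nx g → F) : u ⬝ᵥ (JJ g F *ᵥ u) = 0 := by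
  rw [Q5_B]
  exact Finset.sum_eq_zero fun a _ => by ring

private theorem Q5_entry {F : Type} [Field F] {g r : ℕ} (U : Matrix (Fin r) (Nx g) F) (i j : Fin r) :
    (U * JJ g F * Uᵀ) i j = U i ⬝ᵥ (JJ g F *ᵥ U j) := by
  rw [Matrix.mul_assoc, Matrix.mul_apply]
  rfl

private theorem Q5_step {F : Type} [Field F] {g r : ℕ} (h : r < g) (U : Matrix (Fin r) (Nx g) F) :
    ∃ v : Nx g → F, (∀ i, U i ⬝ᵥ (JJ g F *ᵥ v) = 0) ∧ v ∉ Submodule.span F (Set.range fun i => U i) := by
  by_contra hcon
  push Not at hcon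
  let L : (Nx g → F) →ₗ[F] (Fin r → F) := Matrix.mulVecLin (U * JJ g F)
  have hL : ∀ v i, L v i = U i ⬝ᵥ (JJ g F *ᵥ v) := by
    intro v i
    show ((U * JJ g F) *ᵥ v) i = _
    rw [← Matrix.mulVec_mulVec]
    rfl
  have h1 : LinearMap.ker L ≤ Submodule.span F (Set.range fun i => U i) := by
    intro v hv
    refine hcon v fun i => ?_
    rw [← hL, LinearMap.mem_ker.1 hv]
    rfl
  have h2 := Submodule.finrank_mono h1
  have h3 : Module.finrank F (Submodule.span F (Set.range fun i => U i)) ≤ r := by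
    have := finrank_range_le_card (R := F) (fun i => U i)
    rwa [Fintype.card_fin] at this
  have h4 := LinearMap.finrank_range_add_finrank_ker L
  have h5 : Module.finrank F (LinearMap.range L) ≤ r := by
    have := Submodule.finrank_le (LinearMap.range L)
    rwa [Module.finrank_fintype_fun_eq_card, Fintype.card_fin] at this
  have h6 : Module.finrank F (Nx g → F) = g + g := by
    rw [Module.finrank_fintype_fun_eq_card, Fintype.card_sum, Fintype.card_fin]
  omega

private theorem Q5_main {F : Type} [Field F] {g : ℕ} (n : ℕ) : ∀ (r : ℕ) (h : r ≤ g), g - r = n → ∀ U : Matrix (Fin r) (Nx g) F,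
    U * JJ g F * Uᵀ = 0 → (LinearIndependent F fun i => U i) →
    ∃ V : Matrix (Fin g) (Nx g) F, V * JJ g F * Vᵀ = 0 ∧ (LinearIndependent F fun i => V i) ∧ top h V = U := by
  induction n with
  | zero =>
    intro r h hn U hi hr
    have h1 : r = g := by omega
    subst h1
    exact ⟨U, hi, hr, rfl⟩
  | succ n ih =>
    intro r h hn U hi hr
    have h1 : r < g := by omega
    obtain ⟨v, hv, hv'⟩ := Q5_step h1 U
    let U' : Matrix (Fin (r + 1)) (Nx g) F := Fin.snoc (α := fun _ => Nx g → F) U v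
    have hs : ∀ i : Fin r, U' (Fin.castSucc i) = U i := fun i => Fin.snoc_castSucc (α := fun _ => Nx g → F) _ _ _
    have hl : U' (Fin.last r) = v := Fin.snoc_last (α := fun _ => Nx g → F) _ _
    have hi' : U' * JJ g F * U'ᵀ = 0 := by
      ext i j
      rw [Q5_entry, Matrix.zero_apply]
      refine Fin.lastCases ?_ (fun i => ?_) i
      · refine Fin.lastCases ?_ (fun j => ?_) j
        · exact Q5_self _
        · rw [hl, hs, Q5_anti, hv, neg_zero]
      · refine Fin.lastCases ?_ (fun j => ?_) j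
        · rw [hl, hs, hv]
        · rw [hs, hs, ← Q5_entry, hi, Matrix.zero_apply]
    have hr' : LinearIndependent F fun i => U' i := linearIndependent_finSnoc.2 ⟨hr, hv'⟩
    obtain ⟨V, hV, hV', hVt⟩ := ih (r + 1) (by omega) (by omega) U' hi' hr'
    refine ⟨V, hV, hV', ?_⟩
    funext i
    rw [← hs i, ← hVt]
    rfl

theorem ext_lag {F : Type} [Field F] {g r : ℕ} (h : r ≤ g) (U : Matrix (Fin r) (Nx g) F) (hi : U * JJ g F * Uᵀ = 0)
    (hr : LinearIndependent F fun i => U i) :
    ∃ V : Matrix (Fin g) (Nx g) F, V * JJ g F * Vᵀ = 0 ∧ (LinearIndependent F fun i => V i) ∧ top h V = U := by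
  exact Q5_main (g - r) r h rfl U hi hr

end MPadcIP
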