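import Pool.Agent.Lib.MP_adc574_ag_IP.Defs

/-!
# LEAF Q6: an isotropic frame with the identity matrix in given columns (medium-)

PROOF. Let `S` be the image of the injective map `t₀ : Fin r → Nx g`, `A` the set of the `a : Fin g` with `inl a ∈ S` and `inr a ∈ S`, `E` the set of the `a` with neither. The number of
elements of `S` is `r = g + #A - #E` (every `a` not in `A`, `E` has exactly one of `inl a`, `inr a` in `S`), so `#A ≤ #E` and there is an injection `f : A → E`
(as a function `f : Fin g → Fin g`, injective on `A`, with values in `E` on `A`). Let row `i` of `U` be `e_(t₀ i)` plus: `e_(inl (f a))` if `t₀ i = inl a`, `a ∈ A`; `- e_(inr (f a))` if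
`t₀ i = inr a`, `a ∈ A`; nothing otherwise. The added vectors are supported outside `S`, so the entry `(i, t₀ j)` is `1` for `i = j` and `0` otherwise (`t₀` injective).
Isotropy: `U * JJ * Uᵀ` at `(i, i')` is `∑ a, (U i (inl a) * U i' (inr a) - U i (inr a) * U i' (inl a))`. The cross terms between the `e_(t₀ i)` and the added vectors are zero
(the indices of the added vectors are in `E`, those of `t₀ i` are not). The term of `e_(t₀ i)`, `e_(t₀ i')` is `± 1` if `{t₀ i, t₀ i'} = {inl a, inr a}` (then `a ∈ A`) and zero otherwise; the term of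
the added vectors is the opposite (`f` is injective on `A`).
-/

set_option autoImplicit false

namespace MPadcIP

open Polynomial Matrix MPadcGM MPadcOA MPadcPC

private theorem Q6_form (F : Type) [Field F] {g r : ℕ} (U : Matrix (Fin r) (Nx g) F) (i i' : Fin r) :
    (U * JJ g F * Uᵀ) i i' =
      ∑ c, (U i (Sum.inl c) * U i' (Sum.inr c) - U i (Sum.inr c) * U i' (Sum.inl c)) := by
  rw [Matrix.mul_apply, Fintype.sum_sum_type, ← Finset.sum_add_distrib]
  have h1 : ∀ c, (U * JJ g F) i (Sum.inl c) = - U i (Sum.inr c) := by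
    intro c
    rw [Matrix.mul_apply, Fintype.sum_sum_type]
    simp [JJ, Matrix.one_apply]
  have h2 : ∀ c, (U * JJ g F) i (Sum.inr c) = U i (Sum.inl c) := by
    intro c
    rw [Matrix.mul_apply, Fintype.sum_sum_type]
    simp [JJ, Matrix.one_apply]
  have h3 : Finset.univ.sum (fun c : Fin g => (U * JJ g F) i (Sum.inl c) * Uᵀ (Sum.inl c) i' +
      (U * JJ g F) i (Sum.inr c) * Uᵀ (Sum.inr c) i') =
      ∑ c, (U i (Sum.inl c) * U i' (Sum.inr c) - U i (Sum.inr c) * U i' (Sum.inl c)) := by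
    refine Finset.sum_congr rfl fun c _ => ?_
    rw [h1, h2, Matrix.transpose_apply, Matrix.transpose_apply]
    ring
  exact h3

private theorem Q6_card {g r : ℕ} (h : r ≤ g) (t₀ : Px g r) (ht : Function.Injective t₀) :
    (Finset.univ.filter fun a : Fin g => Sum.inl a ∈ Set.range t₀ ∧ Sum.inr a ∈ Set.range t₀).card ≤
      (Finset.univ.filter fun a : Fin g => Sum.inl a ∉ Set.range t₀ ∧ Sum.inr a ∉ Set.range t₀).card := by
  classical
  have h1 : ∑ l : Nx g, (if l ∈ Set.range t₀ then 1 else 0) = r := by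
    rw [Finset.sum_boole]
    have h2 : (Finset.univ.filter fun l : Nx g => l ∈ Set.range t₀) = Finset.univ.image t₀ := by
      ext l
      simp
    rw [h2, Finset.card_image_of_injective _ ht]
    simp
  rw [Fintype.sum_sum_type, ← Finset.sum_add_distrib] at h1
  have h3 : ∀ a : Fin g, ((if (Sum.inl a : Nx g) ∈ Set.range t₀ then 1 else 0) +
      (if (Sum.inr a : Nx g) ∈ Set.range t₀ then 1 else 0)) +
      (if (Sum.inl a : Nx g) ∉ Set.range t₀ ∧ (Sum.inr a : Nx g) ∉ Set.range t₀ then 1 else 0) =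
      1 + (if (Sum.inl a : Nx g) ∈ Set.range t₀ ∧ (Sum.inr a : Nx g) ∈ Set.range t₀ then 1 else 0) := by
    intro a
    by_cases h4 : (Sum.inl a : Nx g) ∈ Set.range t₀ <;>
      by_cases h5 : (Sum.inr a : Nx g) ∈ Set.range t₀ <;>
        simp only [h4, h5, if_true, if_false, not_true, not_false_eq_true, and_self, and_true,
          and_false]
  have h6 := Finset.sum_congr (rfl : (Finset.univ : Finset (Fin g)) = Finset.univ) fun a _ => h3 a
  rw [Finset.sum_add_distrib, h1, Finset.sum_add_distrib, Finset.sum_boole, Finset.sum_boole,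
    Finset.sum_const, Finset.card_univ, Fintype.card_fin, smul_eq_mul, mul_one] at h6
  simp only [Nat.cast_id] at h6
  omega

private theorem Q6_key (F : Type) [Field F] {g : ℕ} (S : Set (Nx g)) (A : Finset (Fin g)) (f : Fin g → Fin g)
    (hA : ∀ a, a ∈ A ↔ Sum.inl a ∈ S ∧ Sum.inr a ∈ S)
    (hf : ∀ a ∈ A, Sum.inl (f a) ∉ S ∧ Sum.inr (f a) ∉ S) (hinj : ∀ a ∈ A, ∀ b ∈ A, f a = f b → a = b)
    (a b : Fin g) (ha : Sum.inl a ∈ S) (hb : Sum.inr b ∈ S) :
    ∑ c, ((if a = c then (1 : F) else 0) + (if a ∈ A ∧ f a = c then 1 else 0)) *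
      ((if b = c then (1 : F) else 0) - (if b ∈ A ∧ f b = c then 1 else 0)) = 0 := by
  have h1 : ∀ b' ∈ A, f b' ≠ a := fun b' hb' h => (hf b' hb').1 (h ▸ ha)
  have h2 : ∀ a' ∈ A, f a' ≠ b := fun a' ha' h => (hf a' ha').2 (h ▸ hb)
  simp only [add_mul, mul_sub, Finset.sum_add_distrib, Finset.sum_sub_distrib]
  have e1 : ∑ c, (if a = c then (1 : F) else 0) * (if b = c then 1 else 0) = if a = b then 1 else 0 := by
    rw [Finset.sum_eq_single a (fun c _ hc => by rw [if_neg (Ne.symm hc), zero_mul])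
      (fun h => absurd (Finset.mem_univ a) h), if_pos rfl, one_mul]
    exact if_congr eq_comm rfl rfl
  have e2 : ∑ c, (if a = c then (1 : F) else 0) * (if b ∈ A ∧ f b = c then 1 else 0) = 0 := by
    refine Finset.sum_eq_zero fun c _ => ?_
    by_cases hc : a = c
    · rw [if_neg (fun h : b ∈ A ∧ f b = c => h1 b h.1 (h.2.trans hc.symm)), mul_zero]
    · rw [if_neg hc, zero_mul]
  have e3 : ∑ c, (if a ∈ A ∧ f a = c then (1 : F) else 0) * (if b = c then 1 else 0) = 0 := by
    refine Finset.sum_eq_zero fun c _ => ?_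
    by_cases hc : b = c
    · rw [if_neg (fun h : a ∈ A ∧ f a = c => h2 a h.1 (h.2.trans hc.symm)), zero_mul]
    · rw [if_neg hc, mul_zero]
  have e4 : ∑ c, (if a ∈ A ∧ f a = c then (1 : F) else 0) * (if b ∈ A ∧ f b = c then 1 else 0) =
      if a = b then 1 else 0 := by
    by_cases hab : a = b
    · subst hab
      have haA : a ∈ A := (hA a).2 ⟨ha, hb⟩
      rw [if_pos rfl, Finset.sum_eq_single (f a)
        (fun c _ hc => by rw [if_neg (fun h : a ∈ A ∧ f a = c => hc h.2.symm), zero_mul])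
        (fun h => absurd (Finset.mem_univ _) h), if_pos ⟨haA, rfl⟩, one_mul]
    · rw [if_neg hab]
      refine Finset.sum_eq_zero fun c _ => ?_
      by_cases hc : a ∈ A ∧ f a = c
      · rw [if_neg (fun h : b ∈ A ∧ f b = c => hab (hinj a hc.1 b h.1 (hc.2.trans h.2.symm))), mul_zero]
      · rw [if_neg hc, zero_mul]
  rw [e1, e2, e3, e4]
  ring

theorem exists_iso (F : Type) [Field F] {g r : ℕ} (h : r ≤ g) (t₀ : Px g r) (ht : Function.Injective t₀) :
    ∃ U : Matrix (Fin r) (Nx g) F, U * JJ g F * Uᵀ = 0 ∧ ∀ i j, U i (t₀ j) = if i = j then 1 else 0 := by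
  classical
  set S : Set (Nx g) := Set.range t₀ with hS
  set A : Finset (Fin g) := Finset.univ.filter fun a : Fin g => Sum.inl a ∈ S ∧ Sum.inr a ∈ S with hAd
  set E : Finset (Fin g) := Finset.univ.filter fun a : Fin g => Sum.inl a ∉ S ∧ Sum.inr a ∉ S with hEd
  have hAE : A.card ≤ E.card := Q6_card h t₀ ht
  have hA : ∀ a, a ∈ A ↔ Sum.inl a ∈ S ∧ Sum.inr a ∈ S := by
    intro a
    rw [hAd, Finset.mem_filter]
    exact and_iff_right (Finset.mem_univ a)
  have hE : ∀ a ∈ E, Sum.inl a ∉ S ∧ Sum.inr a ∉ S := fun a ha => (Finset.mem_filter.1 ha).2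
  obtain ⟨e⟩ : Nonempty (A ↪ E) := by
    refine Function.Embedding.nonempty_of_card_le ?_
    rw [Fintype.card_coe, Fintype.card_coe]
    exact hAE
  set f : Fin g → Fin g := fun a => if ha : a ∈ A then (e ⟨a, ha⟩ : Fin g) else a with hfd
  have hfe : ∀ a (ha : a ∈ A), f a = (e ⟨a, ha⟩ : Fin g) := fun a ha => by
    rw [hfd]
    exact dif_pos ha
  have hf : ∀ a ∈ A, Sum.inl (f a) ∉ S ∧ Sum.inr (f a) ∉ S := by
    intro a ha
    rw [hfe a ha]
    exact hE _ (e ⟨a, ha⟩).2
  have hinj : ∀ a ∈ A, ∀ b ∈ A, f a = f b → a = b := by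
    intro a ha b hb hab
    rw [hfe a ha, hfe b hb] at hab
    have h1 := e.injective (Subtype.ext hab)
    exact congrArg Subtype.val h1
  let B : Nx g → Nx g → F := fun l l' => Sum.elim
    (fun a => Sum.elim (fun b => if a ∈ A ∧ f a = b then (1 : F) else 0) (fun _ => 0) l')
    (fun a => Sum.elim (fun _ => 0) (fun b => if a ∈ A ∧ f a = b then (-1 : F) else 0) l') l
  have hB : ∀ l l', l' ∈ S → B l l' = 0 := by
    intro l l' hl'
    rcases l with a | a <;> rcases l' with b | b
    · show (if a ∈ A ∧ f a = b then (1 : F) else 0) = 0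
      exact if_neg fun h1 : a ∈ A ∧ f a = b => (hf a h1.1).1 (by rw [h1.2]; exact hl')
    · rfl
    · rfl
    · show (if a ∈ A ∧ f a = b then (-1 : F) else 0) = 0
      exact if_neg fun h1 : a ∈ A ∧ f a = b => (hf a h1.1).2 (by rw [h1.2]; exact hl')
  let V : Nx g → Nx g → F := fun l l' => (if l = l' then 1 else 0) + B l l'
  have v1 : ∀ a c, V (Sum.inl a) (Sum.inl c) =
      (if a = c then (1 : F) else 0) + (if a ∈ A ∧ f a = c then 1 else 0) := by
    intro a c
    show (if (Sum.inl a : Nx g) = Sum.inl c then (1 : F) else 0) + _ = _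
    rw [if_congr Sum.inl_injective.eq_iff rfl rfl]
    rfl
  have v2 : ∀ a c, V (Sum.inl a) (Sum.inr c) = 0 := by
    intro a c
    show (if (Sum.inl a : Nx g) = Sum.inr c then (1 : F) else 0) + 0 = _
    rw [if_neg Sum.inl_ne_inr, add_zero]
  have v3 : ∀ a c, V (Sum.inr a) (Sum.inl c) = 0 := by
    intro a c
    show (if (Sum.inr a : Nx g) = Sum.inl c then (1 : F) else 0) + 0 = _
    rw [if_neg Sum.inr_ne_inl, add_zero]
  have v4 : ∀ a c, V (Sum.inr a) (Sum.inr c) =
      (if a = c then (1 : F) else 0) - (if a ∈ A ∧ f a = c then 1 else 0) := by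
    intro a c
    show (if (Sum.inr a : Nx g) = Sum.inr c then (1 : F) else 0) +
      (if a ∈ A ∧ f a = c then (-1 : F) else 0) = _
    rw [if_congr Sum.inr_injective.eq_iff rfl rfl, sub_eq_add_neg]
    congr 1
    by_cases h1 : a ∈ A ∧ f a = c
    · rw [if_pos h1, if_pos h1]
    · rw [if_neg h1, if_neg h1, neg_zero]
  have hiso : ∀ l ∈ S, ∀ l' ∈ S,
      ∑ c, (V l (Sum.inl c) * V l' (Sum.inr c) - V l (Sum.inr c) * V l' (Sum.inl c)) = 0 := by
    intro l hl l' hl'
    rcases l with a | a <;> rcases l' with b | b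
    · refine Finset.sum_eq_zero fun c _ => ?_
      rw [v2, v2, mul_zero, zero_mul, sub_zero]
    · have h1 := Q6_key F S A f hA hf hinj a b hl hl'
      rw [← h1]
      refine Finset.sum_congr rfl fun c _ => ?_
      rw [v2, v1, v4, zero_mul, sub_zero]
    · have h1 := Q6_key F S A f hA hf hinj b a hl' hl
      have h2 : ∑ c, (V (Sum.inr a) (Sum.inl c) * V (Sum.inl b) (Sum.inr c) -
          V (Sum.inr a) (Sum.inr c) * V (Sum.inl b) (Sum.inl c)) =
          - ∑ c, ((if b = c then (1 : F) else 0) + (if b ∈ A ∧ f b = c then 1 else 0)) *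
            ((if a = c then (1 : F) else 0) - (if a ∈ A ∧ f a = c then 1 else 0)) := by
        rw [← Finset.sum_neg_distrib]
        refine Finset.sum_congr rfl fun c _ => ?_
        rw [v3, v1, v4, zero_mul, zero_sub, mul_comm]
      rw [h2, h1, neg_zero]
    · refine Finset.sum_eq_zero fun c _ => ?_
      rw [v3, v3, mul_zero, zero_mul, sub_zero]
  refine ⟨fun i l => V (t₀ i) l, ?_, fun i j => ?_⟩
  · ext i i'
    rw [Q6_form]
    exact hiso _ ⟨i, rfl⟩ _ ⟨i', rfl⟩
  · show (if t₀ i = t₀ j then (1 : F) else 0) + B (t₀ i) (t₀ j) = _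
    rw [hB _ _ ⟨j, rfl⟩, add_zero]
    exact if_congr ht.eq_iff rfl rfl

end MPadcIP
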