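import Pool.Agent.Lib.MP_adc574_ag_IP.Q2
import Pool.Agent.Lib.MP_adc574_ag_IP.Q3
import Pool.Agent.Lib.MP_adc574_ag_IP.Q5

/-!
# LEAF Q7: the forms which vanish at the generic isotropic frame vanish at all isotropic frames (medium, 4)

* `evp_of_vanP`: `ext_lag` (Q5) gives `V` with `top h V = U`; `Van (ti h φ)` (`vanP_iff`), `ev_of_van` (OA/N_T2.lean) for `V`: `ev V (fun s => f (ti h φ s)) = 0`; `ti_map`, `ev_ti`.
* `li_inv` (rows independent = there is a right inverse): copy of `li_iff_inv` in OA/N_V1.lean for `Fin r` in place of `Fin g`.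
* `li_ev`: copy of `li_of_eval` in OA/N_V1.lean.
* `evp_van_U`: copy of `ev_van_U` in OA/N_V1.lean with `evp_of_vanP` (`f = algebraMap k[X] (RatFunc k)`), `li_ev`, `evp_map`, `pl_map`. (`NV1_JJ` is private there: copy it with the prefix `Q7_`.)
-/

set_option autoImplicit false

namespace MPadcIP

open Polynomial Matrix MPadcGM MPadcOA MPadcPC

theorem evp_of_vanP {R F : Type} [CommRing R] [Field F] {g r m : ℕ} (h : r ≤ g) (f : R →+* F) {φ : (Fin m → Px g r) → R}
    (hφ : VanP h φ) (U : Matrix (Fin r) (Nx g) F) (hi : U * JJ g F * Uᵀ = 0) (hr : LinearIndependent F fun i => U i) :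
    evp (pl U) (fun s => f (φ s)) = 0 := by
  obtain ⟨V, hV1, hV2, hV3⟩ := ext_lag h U hi hr
  have h1 := ev_of_van f ((vanP_iff h φ).1 hφ) V hV1 hV2
  have h2 : (fun s => f (ti h φ s)) = ti h (fun t => f (φ t)) := funext fun s => ti_map h f φ s
  rw [h2, ev_ti, hV3] at h1
  exact h1

theorem li_inv {F : Type} [Field F] {g r : ℕ} (U : Matrix (Fin r) (Nx g) F) :
    (LinearIndependent F fun i => U i) ↔ ∃ V : Matrix (Nx g) (Fin r) F, U * V = 1 := by
  classical
  constructor
  · intro h
    have hinj : Function.Injective (Matrix.vecMulLinear U) := by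
      rw [injective_iff_map_eq_zero]
      intro c hc
      funext i
      refine Fintype.linearIndependent_iff.mp h c ?_ i
      rw [Matrix.vecMulLinear_apply, Matrix.vecMul_eq_sum] at hc
      exact hc
    obtain ⟨G, hG⟩ := LinearMap.exists_leftInverse_of_injective (Matrix.vecMulLinear U) (LinearMap.ker_eq_bot.mpr hinj)
    refine ⟨fun l i => G (Pi.single l 1) i, ?_⟩
    ext i j
    have h1 : G (U i) = Pi.single i 1 := by
      have h2 := LinearMap.congr_fun hG (Pi.single i (1 : F))
      rw [LinearMap.comp_apply, Matrix.vecMulLinear_apply, Matrix.single_one_vecMul, LinearMap.id_apply] at h2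
      exact h2
    have h3 : U i = ∑ l, U i l • (Pi.single l (1 : F) : Nx g → F) := by
      funext l
      rw [Finset.sum_apply, Finset.sum_eq_single l]
      · rw [Pi.smul_apply, Pi.single_eq_same, smul_eq_mul, mul_one]
      · intro l' _ hl'
        rw [Pi.smul_apply, Pi.single_eq_of_ne (Ne.symm hl'), smul_zero]
      · intro hl
        exact absurd (Finset.mem_univ l) hl
    rw [Matrix.mul_apply, Matrix.one_apply]
    have h4 : ∑ l, U i l * G (Pi.single l 1) j = G (U i) j := by
      conv_rhs => rw [h3]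
      rw [map_sum, Finset.sum_apply]
      refine Finset.sum_congr rfl fun l _ => ?_
      rw [map_smul, Pi.smul_apply, smul_eq_mul]
    rw [h4, h1, Pi.single_apply]
    simp only [eq_comm]
  · rintro ⟨V, hV⟩
    rw [Fintype.linearIndependent_iff]
    intro c hc i
    have h1 : c ᵥ* U = 0 := by
      rw [Matrix.vecMul_eq_sum]
      exact hc
    have h2 : c = 0 := by
      rw [← Matrix.vecMul_one c, ← hV, ← Matrix.vecMul_vecMul, h1, Matrix.zero_vecMul]
    rw [h2, Pi.zero_apply]

theorem li_ev {k : Type} [Field k] {g r : ℕ} (U : Matrix (Fin r) (Nx g) k[X]) (α : k)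
    (h : LinearIndependent k fun i l => (U i l).eval α) :
    LinearIndependent (RatFunc k) fun i => (U.map (algebraMap k[X] (RatFunc k))) i := by
  classical
  obtain ⟨V, hV⟩ := (li_inv (Matrix.of fun i l => (U i l).eval α)).mp h
  have hd : (U * V.map (C : k →+* k[X])).det ≠ 0 := by
    intro h0
    have h1 : ((U * V.map (C : k →+* k[X])).map (evalRingHom α)).det = 0 := by
      rw [← RingHom.mapMatrix_apply, ← RingHom.map_det, h0, map_zero]
    have h2 : (U * V.map (C : k →+* k[X])).map (evalRingHom α) = 1 := by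
      rw [Matrix.map_mul, Matrix.map_map, ← hV]
      congr 1
      ext l i
      simp
    rw [h2, Matrix.det_one] at h1
    exact one_ne_zero h1
  rw [li_inv]
  have hd2 : ((U * V.map (C : k →+* k[X])).map (algebraMap k[X] (RatFunc k))).det ≠ 0 := by
    rw [← RingHom.mapMatrix_apply, ← RingHom.map_det]
    intro h0
    exact hd ((map_eq_zero_iff _ (IsFractionRing.injective k[X] (RatFunc k))).mp h0)
  refine ⟨(V.map (C : k →+* k[X])).map (algebraMap k[X] (RatFunc k)) *
    ((U * V.map (C : k →+* k[X])).map (algebraMap k[X] (RatFunc k)))⁻¹, ?_⟩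
  rw [← Matrix.mul_assoc, ← Matrix.map_mul]
  exact Matrix.mul_nonsing_inv _ (isUnit_iff_ne_zero.mpr hd2)

private theorem Q7_JJ {R S : Type} [CommRing R] [CommRing S] (f : R →+* S) (g : ℕ) : (JJ g R).map f = JJ g S := by
  rw [JJ, JJ, Matrix.fromBlocks_map, Matrix.map_zero _ (map_zero f), Matrix.map_one _ (map_zero f) (map_one f)]
  congr 1
  ext i j
  simp [Matrix.one_apply, apply_ite f]

theorem evp_van_U {k : Type} [Field k] {g r m : ℕ} (h : r ≤ g) (U : Matrix (Fin r) (Nx g) k[X]) (hi : U * JJ g k[X] * Uᵀ = 0)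
    (α : k) (hα : LinearIndependent k fun i l => (U i l).eval α) {ψ : (Fin m → Px g r) → k[X]} (hψ : VanP h ψ) :
    evp (pl U) ψ = 0 := by
  have hiso : U.map (algebraMap k[X] (RatFunc k)) * JJ g (RatFunc k) * (U.map (algebraMap k[X] (RatFunc k)))ᵀ = 0 := by
    rw [← Q7_JJ (algebraMap k[X] (RatFunc k)) g, ← Matrix.transpose_map, ← Matrix.map_mul, ← Matrix.map_mul, hi,
      Matrix.map_zero _ (map_zero _)]
  have h1 := evp_of_vanP h (algebraMap k[X] (RatFunc k)) hψ (U.map (algebraMap k[X] (RatFunc k))) hiso (li_ev U α hα)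
  have h2 : pl (U.map (algebraMap k[X] (RatFunc k))) = fun t => algebraMap k[X] (RatFunc k) (pl U t) :=
    funext fun t => (pl_map (algebraMap k[X] (RatFunc k)) U t).symm
  rw [h2, ← evp_map] at h1
  exact (map_eq_zero_iff _ (IsFractionRing.injective k[X] (RatFunc k))).mp h1

end MPadcIP
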