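import Pool.Agent.Lib.MP_adc574_ag_IP.Q6
import Pool.Agent.Lib.MP_adc574_ag_IP.Q7

/-!
# LEAF Q8: the spaces `SSP`, `ZZP` (medium-, 9 short statements)

Models: OA/S4.lean, OA/S5.lean, OA/S6.lean.

* `mulzP_map`: `apply_ite`. `evp_mulzP`: `Fin.snocEquiv`-type reindexing (`Fin.consEquiv`, `Fin.snocEquiv`, or `Fin.prod_univ_castSucc` and `Fin.snoc`): the sum over
  `s : Fin (m + 1) → Px g r` is the sum over `(s', t)`, `s = Fin.snoc s' t`; only `t = t₀` remains.
* `gp_ne`: suppose `gp h k t₀ = 0`. The form `φ : (Fin 1 → Px g r) → k`, `φ s = if s 0 = t₀ then 1 else 0`, has `evgp h 1 k φ = gp h k t₀ = 0`, so `VanP h φ`. `exists_iso` (Q6) gives `U`;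
  its rows are independent (`∑ x_i • U i = 0` at the coordinate `t₀ j` gives `x_j = 0`). `evp_of_vanP` (`f = RingHom.id k`): `pl U t₀ = 0`, but `pl U t₀ = det 1 = 1`.
* `ZZP_le`: `gp h k t₀ * evgp φ = evgp (mulzP t₀ φ)` (`evp_mulzP`, `mulzP_map`). `finrank_ZZP`: multiplication by `gp h k t₀ ≠ 0` is injective.
* `sdimP_zero`: as `sdim_zero`. `sdimP_le_succ`: `finrank_ZZP`, `ZZP_le`.
* `sdimP_le`: `SSP h m k ≤ SS g (m * r) k`: `evgp h m k φ = evg g (m * r) k (ti h φ)` (`ti_map`, `ev_ti`, `evg_apply`); `sdim_le` (OA/S6.lean) for `m * r`, `2 * (m * r) + 1 = 2 * (r * m) + 1`.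
-/

set_option autoImplicit false

namespace MPadcIP

open Polynomial Matrix MPadcGM MPadcOA MPadcPC

theorem mulzP_map {R S : Type*} [CommRing R] [CommRing S] {g r m : ℕ} (t₀ : Px g r) (f : R →+* S)
    (φ : (Fin m → Px g r) → R) (s : Fin (m + 1) → Px g r) : f (mulzP t₀ φ s) = mulzP t₀ (fun s => f (φ s)) s := by
  simp only [mulzP, apply_ite f, map_zero]

theorem evp_mulzP {R : Type*} [CommRing R] {g r m : ℕ} (t₀ : Px g r) (P : Px g r → R) (φ : (Fin m → Px g r) → R) :
    evp P (mulzP t₀ φ) = P t₀ * evp P φ := by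
  unfold evp
  rw [← (Fin.snocEquiv fun _ : Fin (m + 1) => Px g r).sum_comp, Fintype.sum_prod_type,
    Finset.sum_eq_single t₀, Finset.mul_sum]
  · refine Finset.sum_congr rfl fun s _ => ?_
    have h1 : (Fin.snocEquiv fun _ : Fin (m + 1) => Px g r) (t₀, s) = Fin.snoc (α := fun _ => Px g r) s t₀ := rfl
    rw [h1, Fin.prod_univ_castSucc]
    simp only [mulzP, Fin.snoc_last, Fin.snoc_castSucc, if_true]
    ring
  · intro t _ ht
    refine Finset.sum_eq_zero fun s _ => ?_
    have h1 : (Fin.snocEquiv fun _ : Fin (m + 1) => Px g r) (t, s) = Fin.snoc (α := fun _ => Px g r) s t := rfl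
    rw [h1]
    simp only [mulzP, Fin.snoc_last, if_neg ht, zero_mul]
  · intro ht
    exact absurd (Finset.mem_univ _) ht

theorem evgp_mulzP {g r m : ℕ} (h : r ≤ g) (t₀ : Px g r) (k : Type) [Field k] (φ : (Fin m → Px g r) → k) :
    evgp h (m + 1) k (mulzP t₀ φ) = gp h k t₀ * evgp h m k φ := by
  have h1 : (fun s => (MvPolynomial.C (mulzP t₀ φ s) : GenR g k)) = mulzP t₀ fun s => MvPolynomial.C (φ s) := by
    funext s
    exact mulzP_map t₀ MvPolynomial.C φ s
  rw [evgp_apply, h1, evp_mulzP]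
  rfl

theorem gp_ne {g r : ℕ} (h : r ≤ g) (t₀ : Px g r) (ht : Function.Injective t₀) (k : Type) [Field k] : gp h k t₀ ≠ 0 := by
  intro h0
  have hv : VanP h (mulzP t₀ fun _ : Fin 0 → Px g r => (1 : k)) := by
    rw [VanP, evgp_mulzP, h0, zero_mul]
  obtain ⟨U, hi, hU⟩ := exists_iso k h t₀ ht
  have hr : LinearIndependent k fun i => U i := by
    rw [Fintype.linearIndependent_iff]
    intro x hx j
    have h1 := congrFun hx (t₀ j)
    rw [Finset.sum_apply, Finset.sum_eq_single j] at h1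
    · rw [Pi.smul_apply, hU, if_pos rfl, smul_eq_mul, mul_one] at h1
      exact h1
    · intro i _ hij
      rw [Pi.smul_apply, hU, if_neg hij, smul_zero]
    · intro hj
      exact absurd (Finset.mem_univ _) hj
  have h1 := evp_of_vanP h (RingHom.id k) hv U hi hr
  have h2 : evp (pl U) (fun s => (RingHom.id k) (mulzP t₀ (fun _ : Fin 0 → Px g r => (1 : k)) s)) =
      pl U t₀ * evp (pl U) (fun _ : Fin 0 → Px g r => (1 : k)) :=
    evp_mulzP t₀ (pl U) (fun _ : Fin 0 → Px g r => (1 : k))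
  rw [h2] at h1
  have h3 : evp (pl U) (fun _ : Fin 0 → Px g r => (1 : k)) = 1 := by
    rw [evp, Fintype.sum_unique, Finset.univ_eq_empty, Finset.prod_empty, mul_one]
  have h4 : pl U t₀ = 1 := by
    have h5 : (Matrix.of fun i j => U i (t₀ j)) = (1 : Matrix (Fin r) (Fin r) k) := by
      ext i j
      rw [Matrix.of_apply, hU, Matrix.one_apply]
    rw [pl, h5, Matrix.det_one]
  rw [h3, h4, one_mul] at h1
  exact one_ne_zero h1

theorem ZZP_le {g r : ℕ} (h : r ≤ g) (t₀ : Px g r) (m : ℕ) (k : Type) [Field k] : ZZP h t₀ m k ≤ SSP h (m + 1) k := by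
  rintro _ ⟨_, ⟨φ, rfl⟩, rfl⟩
  exact ⟨mulzP t₀ φ, evgp_mulzP h t₀ k φ⟩

theorem finrank_ZZP {g r : ℕ} (h : r ≤ g) (t₀ : Px g r) (ht : Function.Injective t₀) (m : ℕ) (k : Type) [Field k] :
    Module.finrank k (ZZP h t₀ m k) = sdimP h m k := by
  have hinj : Function.Injective (LinearMap.mulLeft k (gp h k t₀)) := by
    intro x y h1
    exact mul_left_cancel₀ (gp_ne h t₀ ht k) h1
  exact (Submodule.equivMapOfInjective _ hinj (SSP h m k)).finrank_eq.symm

theorem sdimP_zero {g r : ℕ} (h : r ≤ g) (k : Type) [Field k] : sdimP h 0 k = 1 := by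
  have h1 : ∀ φ : (Fin 0 → Px g r) → k, evgp h 0 k φ = φ default • (1 : GenR g k) := by
    intro φ
    rw [evgp_apply, evp, Fintype.sum_unique, Finset.univ_eq_empty, Finset.prod_empty, mul_one,
      MvPolynomial.smul_eq_C_mul, mul_one]
  have h2 : SSP h 0 k = Submodule.span k {(1 : GenR g k)} := by
    apply le_antisymm
    · rintro _ ⟨φ, rfl⟩
      rw [h1]
      exact Submodule.smul_mem _ _ (Submodule.mem_span_singleton_self _)
    · rw [Submodule.span_singleton_le_iff_mem]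
      refine ⟨fun _ => 1, ?_⟩
      rw [h1, one_smul]
  rw [sdimP, h2]
  exact finrank_span_singleton one_ne_zero

theorem sdimP_le_succ {g r : ℕ} (h : r ≤ g) (t₀ : Px g r) (ht : Function.Injective t₀) (m : ℕ) (k : Type) [Field k] :
    sdimP h m k ≤ sdimP h (m + 1) k := by
  have : Module.Finite k (SSP h (m + 1) k) := by
    unfold SSP
    infer_instance
  rw [← finrank_ZZP h t₀ ht]
  exact Submodule.finrank_mono (ZZP_le h t₀ m k)

theorem sdimP_le {g r : ℕ} (h : r ≤ g) (m : ℕ) (k : Type) [Field k] :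
    sdimP h m k ≤ (2 * (r * m) + 1) ^ Fintype.card ((Fin g × Fin g) ⊕ Sym2 (Fin g)) := by
  have : Module.Finite k (SS g (m * r) k) := by
    unfold SS
    infer_instance
  have hle : SSP h m k ≤ SS g (m * r) k := by
    rintro _ ⟨φ, rfl⟩
    refine ⟨ti h φ, ?_⟩
    have h1 : (fun s => (MvPolynomial.C (ti h φ s) : GenR g k)) = ti h fun t => MvPolynomial.C (φ t) := by
      funext s
      exact ti_map h MvPolynomial.C φ s
    rw [evg_apply, h1, ev_ti]
    rfl
  have h1 := (Submodule.finrank_mono hle).trans (sdim_le g (m * r) k)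
  rw [mul_comm m r] at h1
  exact h1

end MPadcIP
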